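import Pool.Agent.K6.H16.LC.F

/-!
Doubling of stationary waves, part A: the entire extension of a wave to `ℂ^d`.
-/

set_option autoImplicit false
open MeasureTheory Filter Topology Metric
open scoped ENNReal Nat ContDiff

namespace Pool.Agent.K6.H16.QS

open Pool.Agent.Y139.SW

noncomputable section

variable {d : ℕ}

/-- the inclusion of `ℝ^d` in `ℂ^d` -/
def io (x : E d) : Fin d → ℂ := fun i => (x i : ℂ)

lemma io_cont : Continuous (io (d := d)) := by
  unfold io
  fun_prop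

lemma io_add (x y : E d) : io (x + y) = io x + io y := by
  funext i
  simp [io]

lemma io_smul (t : ℝ) (x : E d) : io (t • x) = (t : ℂ) • io x := by
  funext i
  simp [io]

/-- the homogeneous parts of the Taylor series -/
def Pk : ℕ → (E d → ℝ) → (Fin d → ℂ) → ℂ
  | 0, f, _ => (f 0 : ℂ)
  | k + 1, f, z => ∑ j, z j * Pk k (D j f) z

/-- the majorants -/
def Mk : ℕ → (E d → ℝ) → ℝ
  | 0, f => |f 0|
  | k + 1, f => ∑ j, Mk k (D j f)

lemma Mk_nonneg (k : ℕ) : ∀ f : E d → ℝ, 0 ≤ Mk k f := by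
  induction k with
  | zero => intro f; exact abs_nonneg _
  | succ k ih => intro f; exact Finset.sum_nonneg fun j _ => ih _

lemma Pk_le (k : ℕ) : ∀ (f : E d → ℝ) (z : Fin d → ℂ) (r : ℝ), ‖z‖ ≤ r →
    ‖Pk k f z‖ ≤ Mk k f * r ^ k := by
  induction k with
  | zero => intro f z r _; simp [Pk, Mk]
  | succ k ih =>
    intro f z r hz
    have r0 : 0 ≤ r := (norm_nonneg _).trans hz
    unfold Pk Mk
    refine (norm_sum_le _ _).trans ?_
    rw [Finset.sum_mul]
    refine Finset.sum_le_sum fun j _ => ?_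
    rw [norm_mul, pow_succ]
    have h1 := ih (D j f) z r hz
    have h2 : ‖z j‖ ≤ r := (norm_le_pi_norm z j).trans hz
    calc ‖z j‖ * ‖Pk k (D j f) z‖ ≤ r * (Mk k (D j f) * r ^ k) :=
          mul_le_mul h2 h1 (norm_nonneg _) r0
      _ = Mk k (D j f) * (r ^ k * r) := by ring

lemma Pk_cont (k : ℕ) : ∀ f : E d → ℝ, Continuous (Pk k f) := by
  induction k with
  | zero => intro f; exact continuous_const
  | succ k ih =>
    intro f
    show Continuous fun z : Fin d → ℂ => ∑ j, z j * Pk k (D j f) z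
    exact continuous_finsetSum _ fun j _ => (continuous_apply j).mul (ih _)

lemma line_der (z w : Fin d → ℂ) (ζ : ℂ) (j : Fin d) :
    HasDerivAt (fun ζ : ℂ => (z + ζ • w) j) (w j) ζ := by
  have := ((hasDerivAt_id ζ).mul_const (w j)).const_add (z j)
  simpa using this

lemma Pk_der (k : ℕ) : ∀ (f : E d → ℝ), ContDiff ℝ ∞ f → ∀ (z w : Fin d → ℂ) (ζ : ℂ),
    HasDerivAt (fun ζ : ℂ => Pk (k + 1) f (z + ζ • w))
      ((k + 1) * ∑ j, w j * Pk k (D j f) (z + ζ • w)) ζ := by
  induction k with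
  | zero =>
    intro f _ z w ζ
    have h : HasDerivAt (fun ζ : ℂ => ∑ j, (z + ζ • w) j * Pk 0 (D j f) (z + ζ • w))
        (∑ j, w j * Pk 0 (D j f) (z + ζ • w)) ζ := by
      refine HasDerivAt.fun_sum fun j _ => ?_
      exact (line_der z w ζ j).mul_const _
    simpa [Pk] using h
  | succ k ih =>
    intro f hf z w ζ
    have h : HasDerivAt (fun ζ : ℂ => ∑ j, (z + ζ • w) j * Pk (k + 1) (D j f) (z + ζ • w))
        (∑ j, (w j * Pk (k + 1) (D j f) (z + ζ • w) + (z + ζ • w) j *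
          ((k + 1) * ∑ l, w l * Pk k (D l (D j f)) (z + ζ • w)))) ζ := by
      refine HasDerivAt.fun_sum fun j _ => ?_
      exact (line_der z w ζ j).mul (ih (D j f) (D_sm hf j) z w ζ)
    have e : ∑ j, (w j * Pk (k + 1) (D j f) (z + ζ • w) + (z + ζ • w) j *
          ((k + 1) * ∑ l, w l * Pk k (D l (D j f)) (z + ζ • w))) =
        (((k + 1 : ℕ) : ℂ) + 1) * ∑ j, w j * Pk (k + 1) (D j f) (z + ζ • w) := by
      rw [Finset.sum_add_distrib]
      have e2 : ∑ j, (z + ζ • w) j * (((k : ℂ) + 1) * ∑ l, w l * Pk k (D l (D j f)) (z + ζ • w)) =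
          ((k : ℂ) + 1) * ∑ l, w l * Pk (k + 1) (D l f) (z + ζ • w) := by
        simp only [Finset.mul_sum]
        rw [Finset.sum_comm]
        refine Finset.sum_congr rfl fun l _ => ?_
        show _ = ((k : ℂ) + 1) * (w l * ∑ j, (z + ζ • w) j * Pk k (D j (D l f)) (z + ζ • w))
        simp only [Finset.mul_sum]
        refine Finset.sum_congr rfl fun j _ => ?_
        have e3 : D l (D j f) = D j (D l f) := funext fun y => D_comm hf l j y
        rw [e3]
        ring
      rw [e2]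
      push_cast
      ring
    rw [e] at h
    exact h

/-- the Taylor series -/
def PHI (f : E d → ℝ) (z : Fin d → ℂ) : ℂ := ∑' k : ℕ, Pk k f z / k !

/-- summability of the majorants -/
def Sm (f : E d → ℝ) : Prop := ∀ r : ℕ, Summable fun k : ℕ => Mk k f * (r : ℝ) ^ k / k !

lemma Pk_bd (f : E d → ℝ) (k : ℕ) (z : Fin d → ℂ) {r : ℝ} (h : ‖z‖ ≤ r) :
    ‖Pk k f z / (k ! : ℂ)‖ ≤ Mk k f * r ^ k / (k ! : ℝ) := by
  rw [norm_div, Complex.norm_natCast]
  gcongr
  exact Pk_le k f z r h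

lemma Sm.hasSum {f : E d → ℝ} (h : Sm f) (z : Fin d → ℂ) :
    HasSum (fun k : ℕ => Pk k f z / k !) (PHI f z) := by
  obtain ⟨r, hr⟩ := exists_nat_ge ‖z‖
  exact (Summable.of_norm_bounded (h r) fun k => Pk_bd f k z hr).hasSum

lemma Sm.cont {f : E d → ℝ} (h : Sm f) : Continuous (PHI f) := by
  rw [continuous_iff_continuousAt]
  intro z
  obtain ⟨r, hr⟩ := exists_nat_gt ‖z‖
  have c : ContinuousOn (fun z => ∑' k : ℕ, Pk k f z / k !) (ball 0 (r : ℝ)) := by
    refine continuousOn_tsum (fun k => ((Pk_cont k f).div_const _).continuousOn) (h r) ?_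
    intro k w hw
    exact Pk_bd f k w (mem_ball_zero_iff.1 hw).le
  exact c.continuousAt (isOpen_ball.mem_nhds (by simpa using hr))

lemma Sm.der {f : E d → ℝ} (hf : ContDiff ℝ ∞ f) (h : Sm f) (h1 : ∀ j, Sm (D j f))
    (z w : Fin d → ℂ) (ζ : ℂ) : HasDerivAt (fun ζ : ℂ => PHI f (z + ζ • w))
      (∑ j, w j * PHI (D j f) (z + ζ • w)) ζ := by
  obtain ⟨F, hF⟩ : ∃ F : ℕ → ℂ → ℂ, F = fun k ζ => Pk k f (z + ζ • w) / k ! := ⟨_, rfl⟩
  have dF : ∀ k ζ, HasDerivAt (F (k + 1)) (∑ j, w j * (Pk k (D j f) (z + ζ • w) / k !)) ζ := by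
    intro k ζ
    rw [hF]
    have := (Pk_der k f hf z w ζ).div_const (((k + 1)! : ℕ) : ℂ)
    refine this.congr_deriv ?_
    rw [Nat.factorial_succ]
    have h2 : ((k ! : ℕ) : ℂ) ≠ 0 := by exact_mod_cast (Nat.factorial_pos k).ne'
    have h3 : (k : ℂ) + 1 ≠ 0 := by exact_mod_cast (Nat.succ_ne_zero k)
    push_cast
    simp only [Finset.mul_sum, Finset.sum_div]
    refine Finset.sum_congr rfl fun j _ => ?_
    field_simp
  have dF0 : ∀ ζ, HasDerivAt (F 0) 0 ζ := by
    intro ζ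
    rw [hF]
    show HasDerivAt (fun ζ : ℂ => (f 0 : ℂ) / ((0 ! : ℕ) : ℂ)) 0 ζ
    exact hasDerivAt_const _ _
  obtain ⟨r, hr⟩ := exists_nat_gt (‖ζ‖)
  obtain ⟨R, hR⟩ := exists_nat_ge (‖z‖ + r * ‖w‖)
  have bd : ∀ (k : ℕ) (ξ : ℂ), ξ ∈ ball (0 : ℂ) r → ‖F k ξ‖ ≤ Mk k f * (R : ℝ) ^ k / k ! := by
    intro k ξ hξ
    rw [hF]
    refine Pk_bd f k _ ?_
    refine (norm_add_le _ _).trans (le_trans ?_ hR)
    rw [norm_smul]
    have := (mem_ball_zero_iff.1 hξ).le
    gcongr
  have df : ∀ k, DifferentiableOn ℂ (F k) (ball (0 : ℂ) r) := by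
    intro k ξ _
    cases k with
    | zero => exact (dF0 ξ).differentiableAt.differentiableWithinAt
    | succ k => exact (dF k ξ).differentiableAt.differentiableWithinAt
  have mem : ζ ∈ ball (0 : ℂ) r := by simpa using hr
  have hs := Complex.hasSum_deriv_of_summable_norm (h R) df isOpen_ball bd mem
  have dd := (Complex.differentiableOn_tsum_of_summable_norm (h R) df isOpen_ball bd ζ
    mem).differentiableAt (isOpen_ball.mem_nhds mem)
  have e1 : (fun ζ : ℂ => PHI f (z + ζ • w)) = fun ζ => ∑' k, F k ζ := by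
    funext ζ
    rw [hF]
    rfl
  rw [e1]
  have e2 : deriv (fun ζ => ∑' k, F k ζ) ζ = ∑ j, w j * PHI (D j f) (z + ζ • w) := by
    have s1 : HasSum (fun k : ℕ => deriv (F (k + 1)) ζ)
        (∑ j, w j * PHI (D j f) (z + ζ • w)) := by
      have s2 : ∀ k : ℕ, deriv (F (k + 1)) ζ =
          ∑ j, w j * (Pk k (D j f) (z + ζ • w) / k !) := fun k => (dF k ζ).deriv
      simp only [s2]
      exact hasSum_sum fun j _ => ((h1 j).hasSum (z + ζ • w)).mul_left (w j)
    have s3 := (hasSum_nat_add_iff' 1).2 hs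
    simp only [Finset.range_one, Finset.sum_singleton, (dF0 ζ).deriv, sub_zero] at s3
    exact s3.unique s1
  rw [← e2]
  exact dd.hasDerivAt

/-- iterated partial derivatives -/
def Dw : List (Fin d) → (E d → ℝ) → E d → ℝ
  | [], f => f
  | j :: α, f => D j (Dw α f)

lemma Dw_sm {f : E d → ℝ} (hf : ContDiff ℝ ∞ f) : ∀ α : List (Fin d), ContDiff ℝ ∞ (Dw α f)
  | [] => hf
  | j :: α => D_sm (Dw_sm hf α) j

/-- families of entire functions on `ℂ^d` which consist of the derivatives of a real solution of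
the Helmholtz equation -/
structure Ent (Φ : List (Fin d) → (Fin d → ℂ) → ℂ) : Prop where
  cont : ∀ α, Continuous (Φ α)
  der : ∀ α z w ζ, HasDerivAt (fun ζ : ℂ => Φ α (z + ζ • w)) (∑ j, w j * Φ (j :: α) (z + ζ • w)) ζ
  fn : ∃ f : E d → ℝ, ContDiff ℝ ∞ f ∧ (∀ y, Lap f y = -f y) ∧ ∀ α x, Φ α (io x) = (Dw α f x : ℂ)

lemma ent_of {f : E d → ℝ} (hf : ContDiff ℝ ∞ f) (eq : ∀ y, Lap f y = -f y)
    (h : ∀ α, Sm (Dw α f) ∧ ∀ x, PHI (Dw α f) (io x) = (Dw α f x : ℂ)) :
    Ent (fun α z => PHI (Dw α f) z) :=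
  ⟨fun α => (h α).1.cont,
    fun α z w ζ => Sm.der (Dw_sm hf α) (h α).1 (fun j => (h (j :: α)).1) z w ζ,
    f, hf, eq, fun α x => (h α).2 x⟩

lemma Dw_zero : ∀ (α : List (Fin d)) (x : E d), Dw α (fun _ => 0) x = 0
  | [], _ => rfl
  | j :: α, x => by
    have : Dw α (fun _ : E d => (0 : ℝ)) = fun _ => 0 := funext fun y => Dw_zero α y
    show D j (Dw α _) x = 0
    rw [this]
    simp [D]

lemma ent_zero : Ent (fun (_ : List (Fin d)) (_ : Fin d → ℂ) => (0 : ℂ)) := by
  refine ⟨fun _ => continuous_const, fun α z w ζ => ?_, fun _ => 0, contDiff_const, fun y => ?_,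
    fun α x => ?_⟩
  · simp only [mul_zero, Finset.sum_const_zero]
    exact hasDerivAt_const _ _
  · unfold Lap D
    simp
  · rw [Dw_zero]
    simp

/-- uniqueness on the complex line -/
lemma ident {g h : ℂ → ℂ} (hg : Differentiable ℂ g) (hh : Differentiable ℂ h)
    (e : ∀ x : ℝ, g x = h x) : g = h := by
  have a1 : AnalyticOnNhd ℂ g Set.univ := fun z _ => hg.analyticAt z
  have a2 : AnalyticOnNhd ℂ h Set.univ := fun z _ => hh.analyticAt z
  refine a1.eq_of_frequently_eq (z₀ := 0) a2 ?_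
  have t : Tendsto (fun n : ℕ => ((1 / ((n : ℝ) + 1) : ℝ) : ℂ)) atTop (𝓝[≠] 0) := by
    refine tendsto_nhdsWithin_iff.2 ⟨?_, Eventually.of_forall fun n => ?_⟩
    · have := (Complex.continuous_ofReal.tendsto 0).comp
        (tendsto_one_div_add_atTop_nhds_zero_nat (𝕜 := ℝ))
      rw [Complex.ofReal_zero] at this
      exact this
    · have : (1 / ((n : ℝ) + 1) : ℝ) ≠ 0 := by positivity
      exact Complex.ofReal_ne_zero.2 this
  exact t.frequently (Frequently.of_forall fun n => e _)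

/-- uniqueness on `ℂ^d` for functions holomorphic on lines -/
lemma identd {g h : (Fin d → ℂ) → ℂ}
    (hg : ∀ z w, Differentiable ℂ fun ζ : ℂ => g (z + ζ • w))
    (hh : ∀ z w, Differentiable ℂ fun ζ : ℂ => h (z + ζ • w))
    (e : ∀ x : E d, g (io x) = h (io x)) : g = h := by
  funext z
  obtain ⟨a, ha⟩ : ∃ a : E d, a = WithLp.toLp 2 fun i => (z i).re := ⟨_, rfl⟩
  obtain ⟨b, hb⟩ : ∃ b : E d, b = WithLp.toLp 2 fun i => (z i).im := ⟨_, rfl⟩
  have hz : z = io a + Complex.I • io b := by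
    funext i
    apply Complex.ext <;> simp [io, ha, hb]
  have := ident (hg (io a) (io b)) (hh (io a) (io b)) fun x => by
    rw [← io_smul, ← io_add, e]
  rw [hz]
  exact congrFun this Complex.I

lemma Ent.diff {Φ : List (Fin d) → (Fin d → ℂ) → ℂ} (H : Ent Φ) (α : List (Fin d))
    (z w : Fin d → ℂ) : Differentiable ℂ fun ζ : ℂ => Φ α (z + ζ • w) :=
  fun ζ => (H.der α z w ζ).differentiableAt

lemma Dw_tr (f : E d → ℝ) (x : E d) : ∀ α : List (Fin d),
    Dw α (fun y => f (y + x)) = fun y => Dw α f (y + x)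
  | [] => rfl
  | j :: α => by
    show D j (Dw α _) = _
    rw [Dw_tr f x α, LC.D_tr]
    rfl

lemma Ent.shift {Φ : List (Fin d) → (Fin d → ℂ) → ℂ} (H : Ent Φ) (x : E d) :
    Ent (fun α z => Φ α (z + io x)) := by
  refine ⟨fun α => (H.cont α).comp (by fun_prop), fun α z w ζ => ?_, ?_⟩
  · have := H.der α (z + io x) w ζ
    have e : ∀ ζ : ℂ, z + ζ • w + io x = z + io x + ζ • w := fun ζ => by abel
    simp only [e]
    exact this
  · obtain ⟨f, h1, h2, h3⟩ := H.fn
    refine ⟨fun y => f (y + x), h1.comp (contDiff_id.add contDiff_const), fun y => ?_,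
      fun α y => ?_⟩
    · rw [LC.Lap_tr, h2]
    · rw [← io_add, h3, Dw_tr]

/-- equal on the reals implies equal -/
lemma Ent.ext' {Φ Ψ : List (Fin d) → (Fin d → ℂ) → ℂ} (H : Ent Φ) (K : Ent Ψ)
    (e : ∀ α x, Φ α (io x) = Ψ α (io x)) : Φ = Ψ := by
  funext α
  exact identd (H.diff α) (K.diff α) (e α)

/-- conjugation -/
lemma Ent.conj {Φ : List (Fin d) → (Fin d → ℂ) → ℂ} (H : Ent Φ) (α : List (Fin d))
    (z : Fin d → ℂ) : Φ α (fun i => (starRingEnd ℂ) (z i)) = (starRingEnd ℂ) (Φ α z) := by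
  obtain ⟨f, _, _, hf⟩ := H.fn
  obtain ⟨g, hg⟩ : ∃ g : (Fin d → ℂ) → ℂ, g = fun z =>
    (starRingEnd ℂ) (Φ α fun i => (starRingEnd ℂ) (z i)) := ⟨_, rfl⟩
  have key : g = Φ α := by
    refine identd (fun z w => ?_) (H.diff α) fun x => ?_
    · have h := H.diff α (fun i => (starRingEnd ℂ) (z i)) (fun i => (starRingEnd ℂ) (w i))
      intro ζ
      have h2 := (h ((starRingEnd ℂ) ζ)).hasDerivAt.conj_conj
      have e : (starRingEnd ℂ ∘ (fun ζ : ℂ => Φ α ((fun i => (starRingEnd ℂ) (z i)) + ζ •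
          fun i => (starRingEnd ℂ) (w i))) ∘ starRingEnd ℂ) = fun ζ : ℂ => g (z + ζ • w) := by
        funext ξ
        rw [hg]
        simp only [Function.comp]
        congr 2
        funext i
        simp
      rw [e, Complex.conj_conj] at h2
      exact h2.differentiableAt
    · rw [hg]
      have e1 : (fun i => (starRingEnd ℂ) (io x i)) = io x := by
        funext i
        simp [io]
      show (starRingEnd ℂ) (Φ α fun i => (starRingEnd ℂ) (io x i)) = _
      rw [e1, hf, Complex.conj_ofReal]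
  have := congrFun key z
  rw [hg] at this
  simp only at this
  rw [← this, Complex.conj_conj]

/-- the Helmholtz equation on `ℂ^d` -/
lemma Ent.helm {Φ : List (Fin d) → (Fin d → ℂ) → ℂ} (H : Ent Φ) (α : List (Fin d))
    (z : Fin d → ℂ) : ∑ j, Φ (j :: j :: α) z = -Φ α z := by
  obtain ⟨f, sm, ef, hf⟩ := H.fn
  have key : (fun z => ∑ j, Φ (j :: j :: α) z) = fun z => -Φ α z := by
    refine identd (fun z w => ?_) (fun z w => (H.diff α z w).neg) fun x => ?_
    · exact Differentiable.fun_sum fun j _ => H.diff (j :: j :: α) z w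
    · have hL : ∀ α y, Lap (Dw α f) y = -Dw α f y := by
        intro α
        induction α with
        | nil => exact ef
        | cons j α ih =>
          intro y
          show Lap (D j (Dw α f)) y = -D j (Dw α f) y
          rw [Lap_D (Dw_sm sm α)]
          have : Lap (Dw α f) = fun y => -Dw α f y := funext ih
          rw [this]
          show fderiv ℝ (fun y => -Dw α f y) y _ = -fderiv ℝ (Dw α f) y _
          rw [fderiv_fun_neg]; rfl
      simp only [hf]
      have h := hL α x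
      unfold Lap at h
      rw [← Complex.ofReal_neg, ← h]
      push_cast
      rfl
  exact congrFun key z

end

end Pool.Agent.K6.H16.QS
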