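import Pool.Agent.K6.H16.QS.A

/-!
Doubling of stationary waves, part B: the canonical space of entire waves.
-/

set_option autoImplicit false
open MeasureTheory Filter Topology Metric
open scoped ENNReal Nat ContDiff

namespace Pool.Agent.K6.H16.QS

open Pool.Agent.Y139.SW

noncomputable section

variable {d : ℕ}

lemma Pk_smul (k : ℕ) : ∀ (f : E d → ℝ) (z : Fin d → ℂ) (c : ℂ),
    Pk k f (c • z) = c ^ k * Pk k f z := by
  induction k with
  | zero => intro f z c; simp [Pk]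
  | succ k ih =>
    intro f z c
    show ∑ j, (c • z) j * Pk k (D j f) (c • z) = c ^ (k + 1) * ∑ j, z j * Pk k (D j f) z
    rw [Finset.mul_sum]
    refine Finset.sum_congr rfl fun j _ => ?_
    rw [ih, Pi.smul_apply, smul_eq_mul]
    ring

lemma De_sm {f : E d → ℝ} (hf : ContDiff ℝ ∞ f) (x : E d) : ContDiff ℝ ∞ (LC.De x f) :=
  (hf.fderiv_right (m := ∞) le_rfl).clm_apply contDiff_const

lemma De_sum (x : E d) (a : Fin d → ℝ) {F : Fin d → E d → ℝ} (hF : ∀ j, ContDiff ℝ ∞ (F j)) :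
    LC.De x (fun y => ∑ j, a j * F j y) = fun y => ∑ j, a j * LC.De x (F j) y := by
  funext y
  unfold LC.De
  rw [fderiv_fun_sum fun j _ => (sdiff (hF j) y).const_mul (a j)]
  rw [sum_apply]
  refine Finset.sum_congr rfl fun j _ => ?_
  rw [fderiv_const_mul (sdiff (hF j) y)]
  simp

lemma It_sum (x : E d) (a : Fin d → ℝ) (k : ℕ) : ∀ {F : Fin d → E d → ℝ},
    (∀ j, ContDiff ℝ ∞ (F j)) →
    LC.It x k (fun y => ∑ j, a j * F j y) = fun y => ∑ j, a j * LC.It x k (F j) y := by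
  induction k with
  | zero => intro F _; rfl
  | succ k ih =>
    intro F hF
    have e : ∀ f : E d → ℝ, LC.It x (k + 1) f = LC.It x k (LC.De x f) := fun f => by
      unfold LC.It
      rw [Function.iterate_succ_apply]
    simp only [e]
    rw [De_sum x a hF, ih fun j => De_sm (hF j) x]

lemma Pk_io (k : ℕ) : ∀ (f : E d → ℝ), ContDiff ℝ ∞ f → ∀ x : E d,
    Pk k f (io x) = (LC.It x k f 0 : ℂ) := by
  induction k with
  | zero => intro f _ x; rfl
  | succ k ih =>
    intro f hf x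
    have e : LC.It x (k + 1) f = LC.It x k (LC.De x f) := by
      unfold LC.It
      rw [Function.iterate_succ_apply]
    have e2 : LC.De x f = fun y => ∑ j, x j * D j f y := funext fun y => LC.De_eq x f y
    rw [e, e2, It_sum x (fun j => x j) k fun j => D_sm hf j]
    show ∑ j, io x j * Pk k (D j f) (io x) = _
    push_cast
    refine Finset.sum_congr rfl fun j _ => ?_
    rw [ih (D j f) (D_sm hf j)]
    rfl

variable {S : Type*} [MeasurableSpace S] {P : Measure S} {τ : E d → S → S}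

lemma Mk_meas (k : ℕ) : ∀ {G : S → E d → ℝ}, SF τ G → Measurable fun s => Mk k (G s) := by
  induction k with
  | zero => intro G h; exact (h.meas 0).abs
  | succ k ih =>
    intro G h
    show Measurable fun s => ∑ j, Mk k (D j (G s))
    exact Finset.measurable_fun_sum _ fun j _ => ih (h.der j)

lemma Pk_meas (k : ℕ) : ∀ {G : S → E d → ℝ}, SF τ G → ∀ z, Measurable fun s => Pk k (G s) z := by
  induction k with
  | zero => intro G h z; exact Complex.measurable_ofReal.comp (h.meas 0)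
  | succ k ih =>
    intro G h z
    show Measurable fun s => ∑ j, z j * Pk k (D j (G s)) z
    exact Finset.measurable_fun_sum _ fun j _ => (ih (h.der j) z).const_mul _

lemma l2_D [IsProbabilityMeasure P] (hτ : ∀ x, MeasurePreserving (τ x) P P)
    {G : S → E d → ℝ} (W : Wave P τ G) (j : Fin d) :
    ∫ s, D j (G s) 0 ^ 2 ∂P ≤ ∫ s, G s 0 ^ 2 ∂P := by
  rw [← W.energy hτ]
  exact Finset.single_le_sum (f := fun j => ∫ s, D j (G s) 0 ^ 2 ∂P)
    (fun j _ => integral_nonneg fun s => sq_nonneg _) (Finset.mem_univ j)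

lemma Mk_int [IsProbabilityMeasure P] (hτ : ∀ x, MeasurePreserving (τ x) P P) (m : ℝ) (k : ℕ) :
    ∀ {G : S → E d → ℝ}, Wave P τ G → ∫ s, G s 0 ^ 2 ∂P ≤ m →
    ∫⁻ s, ENNReal.ofReal (Mk k (G s)) ∂P ≤ ENNReal.ofReal (1 + m) * (d : ℝ≥0∞) ^ k := by
  induction k with
  | zero =>
    intro G W hm
    have i1 : Integrable (fun s => 1 + G s 0 ^ 2) P := (integrable_const _).add W.l2
    calc ∫⁻ s, ENNReal.ofReal (Mk 0 (G s)) ∂P ≤ ∫⁻ s, ENNReal.ofReal (1 + G s 0 ^ 2) ∂P := by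
          refine lintegral_mono fun s => ENNReal.ofReal_le_ofReal ?_
          show |G s 0| ≤ _
          rw [← sq_abs]
          nlinarith [sq_nonneg (|G s 0| - 1), abs_nonneg (G s 0)]
      _ = ENNReal.ofReal (∫ s, (1 + G s 0 ^ 2) ∂P) := by
          exact (ofReal_integral_eq_lintegral_ofReal i1
            (ae_of_all _ fun s => by positivity)).symm
      _ ≤ _ := by
          rw [pow_zero, mul_one]
          refine ENNReal.ofReal_le_ofReal ?_
          rw [integral_add (integrable_const _) W.l2]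
          simpa using hm
  | succ k ih =>
    intro G W hm
    have e : ∀ s, ENNReal.ofReal (Mk (k + 1) (G s)) =
        ∑ j, ENNReal.ofReal (Mk k (D j (G s))) := by
      intro s
      show ENNReal.ofReal (∑ j, Mk k (D j (G s))) = _
      exact ENNReal.ofReal_sum_of_nonneg fun j _ => Mk_nonneg k _
    simp only [e]
    rw [lintegral_finsetSum _ fun j _ => (Mk_meas k (W.sf.der j)).ennreal_ofReal]
    calc ∑ j, ∫⁻ s, ENNReal.ofReal (Mk k (D j (G s))) ∂P ≤
        ∑ _j : Fin d, ENNReal.ofReal (1 + m) * (d : ℝ≥0∞) ^ k :=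
          Finset.sum_le_sum fun j _ => ih (W.der hτ j) ((l2_D hτ W j).trans hm)
      _ = _ := by
          rw [Finset.sum_const, Finset.card_univ, Fintype.card_fin, nsmul_eq_mul, pow_succ]
          ring

/-- the total majorant -/
def Ws (r : ℝ) (f : E d → ℝ) : ℝ≥0∞ := ∑' k : ℕ, ENNReal.ofReal (Mk k f * r ^ k / k !)

lemma Ws_int [IsProbabilityMeasure P] (hτ : ∀ x, MeasurePreserving (τ x) P P)
    {G : S → E d → ℝ} (W : Wave P τ G) {m : ℝ} (hm : ∫ s, G s 0 ^ 2 ∂P ≤ m) {r : ℝ}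
    (hr : 0 ≤ r) : ∫⁻ s, Ws r (G s) ∂P ≤ ENNReal.ofReal ((1 + m) * Real.exp (d * r)) := by
  have m0 : 0 ≤ m := le_trans (integral_nonneg fun s => sq_nonneg _) hm
  unfold Ws
  rw [lintegral_tsum fun k =>
    (((Mk_meas k W.sf).mul_const _).div_const _).ennreal_ofReal.aemeasurable]
  rw [ENNReal.ofReal_mul (by positivity), ← LC.exp_tsum (by positivity), ← ENNReal.tsum_mul_left]
  refine ENNReal.tsum_le_tsum fun k => ?_
  have e : ∀ s, ENNReal.ofReal (Mk k (G s) * r ^ k / k !) =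
      ENNReal.ofReal (Mk k (G s)) * ENNReal.ofReal (r ^ k / k !) := by
    intro s
    rw [← ENNReal.ofReal_mul (Mk_nonneg k _), mul_div_assoc]
  simp only [e]
  rw [lintegral_mul_const _ (Mk_meas k W.sf).ennreal_ofReal]
  refine (mul_le_mul_left (Mk_int hτ m k W hm) _).trans (le_of_eq ?_)
  rw [mul_assoc]
  congr 1
  have : (d : ℝ≥0∞) ^ k = ENNReal.ofReal ((d : ℝ) ^ k) := by
    rw [ENNReal.ofReal_pow (Nat.cast_nonneg _), ENNReal.ofReal_natCast]
  rw [this, ← ENNReal.ofReal_mul (by positivity)]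
  congr 1
  rw [mul_pow, mul_div_assoc]

lemma Ws_meas {G : S → E d → ℝ} (h : SF τ G) (r : ℝ) : Measurable fun s => Ws r (G s) := by
  unfold Ws
  exact Measurable.tsum fun k => (((Mk_meas k h).mul_const _).div_const _).ennreal_ofReal

lemma ae_Sm [IsProbabilityMeasure P] (hτ : ∀ x, MeasurePreserving (τ x) P P)
    {G : S → E d → ℝ} (W : Wave P τ G) : ∀ᵐ s ∂P, Sm (G s) := by
  have h : ∀ r : ℕ, ∀ᵐ s ∂P, Ws r (G s) < ⊤ := fun r =>
    ae_lt_top (Ws_meas W.sf r) (ne_top_of_le_ne_top ENNReal.ofReal_ne_top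
      (Ws_int hτ W le_rfl (Nat.cast_nonneg r)))
  filter_upwards [ae_all_iff.2 h] with s hs r
  have := ENNReal.summable_toReal (hs r).ne
  refine this.congr fun k => ?_
  rw [ENNReal.toReal_ofReal]
  have := Mk_nonneg k (G s)
  positivity

lemma PHI_zero (f : E d → ℝ) : PHI f (io 0) = (f 0 : ℂ) := by
  unfold PHI
  have e : ∀ k : ℕ, k ≠ 0 → Pk k f (io 0) / (k ! : ℂ) = 0 := by
    intro k hk
    have : (io (0 : E d)) = (0 : ℂ) • io (0 : E d) := by
      rw [← Complex.ofReal_zero, ← io_smul, smul_zero]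
    rw [this, Pk_smul, zero_pow hk, zero_mul, zero_div]
  rw [tsum_eq_single 0 e]
  simp [Pk]

lemma ae_pt [IsProbabilityMeasure P] (hτ : ∀ x, MeasurePreserving (τ x) P P)
    {G : S → E d → ℝ} (W : Wave P τ G) (x : E d) : ∀ᵐ s ∂P, PHI (G s) (io x) = (G s x : ℂ) := by
  rcases eq_or_ne x 0 with rfl | hx
  · exact ae_of_all _ fun s => PHI_zero _
  have v0 : 0 < ‖x‖ := norm_pos_iff.2 hx
  obtain ⟨e, he⟩ : ∃ e, e = ‖x‖⁻¹ • x := ⟨_, rfl⟩
  have e1 : ‖e‖ = 1 := by
    rw [he, norm_smul, norm_inv, norm_norm, inv_mul_cancel₀ v0.ne']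
  have xe : x = ‖x‖ • e := by
    rw [he, smul_smul, mul_inv_cancel₀ v0.ne', one_smul]
  have H := LC.chain hτ W e1 0
  filter_upwards [H.good] with s hs
  obtain ⟨Φ, dΦ, hΦ⟩ := hs
  have it := fun k => (LC.iter (g := fun k t => LC.It e k (G s) (0 + t • e))
    (fun k y => H.der k s y) dΦ hΦ k).2 0
  have tay := Complex.hasSum_taylorSeries_of_entire dΦ 0 ((‖x‖ : ℝ) : ℂ)
  unfold PHI
  have t2 := tay.tsum_eq
  have e3 : Φ ((‖x‖ : ℝ) : ℂ) = (G s x : ℂ) := by
    rw [hΦ]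
    show ((G s (0 + ‖x‖ • e) : ℝ) : ℂ) = _
    rw [zero_add, ← xe]
  rw [← e3, ← t2]
  refine tsum_congr fun k => ?_
  have i0 := it k
  simp only [Complex.ofReal_zero, zero_smul, add_zero] at i0
  rw [i0]
  conv_lhs => rw [xe]
  rw [io_smul, Pk_smul, Pk_io k (G s) (W.sf.smooth s)]
  simp only [smul_eq_mul, sub_zero]
  ring

lemma ae_PHI [IsProbabilityMeasure P] (hτ : ∀ x, MeasurePreserving (τ x) P P)
    {G : S → E d → ℝ} (W : Wave P τ G) :
    ∀ᵐ s ∂P, Sm (G s) ∧ ∀ x : E d, PHI (G s) (io x) = (G s x : ℂ) := by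
  filter_upwards [ae_Sm hτ W, ae_all_iff.2 fun n : ℕ =>
    ae_pt hτ W (TopologicalSpace.denseSeq (E d) n)] with s h1 h2
  refine ⟨h1, ?_⟩
  have c1 : Continuous fun x : E d => PHI (G s) (io x) := h1.cont.comp io_cont
  have c2 : Continuous fun x : E d => (G s x : ℂ) :=
    Complex.continuous_ofReal.comp (W.sf.smooth s).continuous
  have eq := (TopologicalSpace.denseRange_denseSeq (E d)).equalizer c1 c2 (funext fun n => h2 n)
  exact fun x => congrFun eq x

lemma wave_Dw [IsProbabilityMeasure P] (hτ : ∀ x, MeasurePreserving (τ x) P P)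
    {G : S → E d → ℝ} (W : Wave P τ G) : ∀ α : List (Fin d), Wave P τ (fun s => Dw α (G s))
  | [] => W
  | j :: α => (wave_Dw hτ W α).der hτ j

lemma ae_good [IsProbabilityMeasure P] (hτ : ∀ x, MeasurePreserving (τ x) P P)
    {G : S → E d → ℝ} (W : Wave P τ G) : ∀ᵐ s ∂P, ∀ α : List (Fin d),
    Sm (Dw α (G s)) ∧ ∀ x : E d, PHI (Dw α (G s)) (io x) = (Dw α (G s) x : ℂ) :=
  ae_all_iff.2 fun α => ae_PHI hτ (wave_Dw hτ W α)

/-- the space of entire waves -/
abbrev T (d : ℕ) : Type := {Φ : List (Fin d) → (Fin d → ℂ) → ℂ // Ent Φ}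

/-- the shift -/
def sh (x : E d) (Φ : T d) : T d := ⟨fun α z => Φ.1 α (z + io x), Φ.2.shift x⟩

lemma ev_me (α : List (Fin d)) (z : Fin d → ℂ) : Measurable fun Φ : T d => Φ.1 α z :=
  (measurable_pi_apply z).comp ((measurable_pi_apply α).comp measurable_subtype_coe)

lemma sh_me (x : E d) : Measurable (sh x) :=
  Measurable.subtype_mk (measurable_pi_iff.2 fun α => measurable_pi_iff.2 fun z => ev_me α _)

/-- the supremum over a ball -/
def Bs (r : ℝ) (Φ : T d) : ℝ≥0∞ :=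
  ⨆ n : ℕ, if ‖TopologicalSpace.denseSeq (Fin d → ℂ) n‖ < r + 1 then
    ‖Φ.1 [] (TopologicalSpace.denseSeq (Fin d → ℂ) n)‖ₑ else 0

lemma Bs_me (r : ℝ) : Measurable (Bs (d := d) r) := by
  unfold Bs
  refine Measurable.iSup fun n => ?_
  by_cases h : ‖TopologicalSpace.denseSeq (Fin d → ℂ) n‖ < r + 1
  · simp only [h, if_true]
    exact (ev_me _ _).enorm
  · simp only [h, if_false]
    exact measurable_const

lemma le_Bs (r : ℝ) (Φ : T d) (z : Fin d → ℂ) (hz : ‖z‖ ≤ r) : ‖Φ.1 [] z‖ₑ ≤ Bs r Φ := by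
  by_contra hc
  push Not at hc
  have o : IsOpen {w : Fin d → ℂ | ‖w‖ < r + 1 ∧ Bs r Φ < ‖Φ.1 [] w‖ₑ} :=
    (isOpen_lt continuous_norm continuous_const).inter
      (isOpen_lt continuous_const (Φ.2.cont []).enorm)
  obtain ⟨n, h1, h2⟩ := (TopologicalSpace.denseRange_denseSeq (Fin d → ℂ)).exists_mem_open o
    ⟨z, by linarith, hc⟩
  have : ‖Φ.1 [] (TopologicalSpace.denseSeq (Fin d → ℂ) n)‖ₑ ≤ Bs r Φ := by
    have h3 := le_iSup (fun n : ℕ => if ‖TopologicalSpace.denseSeq (Fin d → ℂ) n‖ < r + 1 then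
      ‖Φ.1 [] (TopologicalSpace.denseSeq (Fin d → ℂ) n)‖ₑ else 0) n
    simp only [h1, if_true] at h3
    exact h3
  exact absurd h2 (not_lt.2 this)

lemma PHI_le {f : E d → ℝ} {r : ℝ} (z : Fin d → ℂ) (hz : ‖z‖ ≤ r) :
    ‖PHI f z‖ₑ ≤ Ws r f := by
  unfold PHI Ws
  refine enorm_tsum_le_tsum_enorm.trans (ENNReal.tsum_le_tsum fun k => ?_)
  rw [← ofReal_norm]
  exact ENNReal.ofReal_le_ofReal (Pk_bd f k z hz)

/-- transport to the canonical space of entire waves -/
theorem canonT [IsProbabilityMeasure P] (hτ : ∀ x, MeasurePreserving (τ x) P P)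
    {G : S → E d → ℝ} (W : Wave P τ G) : ∃ Ψ : S → T d, Measurable Ψ ∧
      (∀ᵐ s ∂P, ∀ x, (Ψ s).1 [] (io x) = (G s x : ℂ)) ∧
      (∀ x, MeasurePreserving (sh x) (P.map Ψ) (P.map Ψ)) ∧
      ∃ σ : ℝ, 0 ≤ σ ∧ ∀ r : ℝ, 0 ≤ r → ∫⁻ Φ, Bs r Φ ∂(P.map Ψ) ≤
        ENNReal.ofReal (σ * Real.exp (d * r)) := by
  classical
  obtain ⟨N, hN1, mN, hN2⟩ := exists_measurable_superset_of_null (ae_iff.1 (ae_good hτ W))
  have gd : ∀ s ∉ N, ∀ α : List (Fin d), Sm (Dw α (G s)) ∧
      ∀ x : E d, PHI (Dw α (G s)) (io x) = (Dw α (G s) x : ℂ) := by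
    intro s hs
    by_contra hc
    exact hs (hN1 hc)
  obtain ⟨ψ, hψ⟩ : ∃ ψ : S → List (Fin d) → (Fin d → ℂ) → ℂ, ψ = fun s α z =>
    if s ∈ N then 0 else PHI (Dw α (G s)) z := ⟨_, rfl⟩
  have ent : ∀ s, Ent (ψ s) := by
    intro s
    rw [hψ]
    by_cases hs : s ∈ N
    · simp only [hs, if_true]
      exact ent_zero
    · simp only [hs, if_false]
      exact ent_of (W.sf.smooth s) (W.eq s) (gd s hs)
  obtain ⟨Ψ, hΨ⟩ : ∃ Ψ : S → T d, Ψ = fun s => ⟨ψ s, ent s⟩ := ⟨_, rfl⟩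
  have v1 : ∀ s, (Ψ s).1 = ψ s := fun s => by rw [hΨ]
  have mΨ : Measurable Ψ := by
    rw [hΨ]
    refine Measurable.subtype_mk (measurable_pi_iff.2 fun α => measurable_pi_iff.2 fun z => ?_)
    rw [hψ]
    refine measurable_of_tendsto_metrizable
      (f := fun (n : ℕ) s => if s ∈ N then 0 else
        ∑ k ∈ Finset.range n, Pk k (Dw α (G s)) z / (k ! : ℂ)) (fun n => ?_) ?_
    · refine Measurable.ite mN measurable_const ?_
      exact Finset.measurable_fun_sum _ fun k _ =>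
        (Pk_meas k (wave_Dw hτ W α).sf z).div_const _
    · rw [tendsto_pi_nhds]
      intro s
      by_cases hs : s ∈ N
      · simp only [hs, if_true]
        exact tendsto_const_nhds
      · simp only [hs, if_false]
        exact ((gd s hs α).1.hasSum z).tendsto_sum_nat
  have aeN : ∀ᵐ s ∂P, s ∉ N := measure_eq_zero_iff_ae_notMem.1 hN2
  refine ⟨Ψ, mΨ, ?_, fun x => ⟨sh_me x, ?_⟩, ?_⟩
  · filter_upwards [aeN] with s hs x
    rw [v1, hψ]
    simp only [hs, if_false]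
    exact (gd s hs []).2 x
  · rw [Measure.map_map (sh_me x) mΨ]
    have e1 : sh x ∘ Ψ =ᵐ[P] Ψ ∘ τ x := by
      have aeN2 : ∀ᵐ s ∂P, τ x s ∉ N := (hτ x).quasiMeasurePreserving.ae aeN
      filter_upwards [aeN, aeN2] with s hs hs2
      refine Subtype.ext ?_
      refine Ent.ext' (sh x (Ψ s)).2 (Ψ (τ x s)).2 fun α y => ?_
      show (Ψ s).1 α (io y + io x) = (Ψ (τ x s)).1 α (io y)
      rw [v1, v1, hψ, ← io_add]
      simp only [hs, hs2, if_false]
      rw [(gd s hs α).2, (gd _ hs2 α).2]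
      have : G (τ x s) = fun y => G s (y + x) := funext fun y => W.sf.cov x s y
      rw [this, Dw_tr]
    rw [Measure.map_congr e1, ← Measure.map_map mΨ (hτ x).measurable, (hτ x).map_eq]
  · refine ⟨(1 + ∫ s, G s 0 ^ 2 ∂P) * Real.exp d, ?_, fun r hr => ?_⟩
    · have : 0 ≤ ∫ s, G s 0 ^ 2 ∂P := integral_nonneg fun s => sq_nonneg _
      positivity
    · rw [lintegral_map (Bs_me r) mΨ]
      have r1 : 0 ≤ r + 1 := by linarith
      refine le_trans (lintegral_mono fun s => ?_) ((Ws_int hτ W le_rfl r1).trans (le_of_eq ?_))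
      · unfold Bs
        refine iSup_le fun n => ?_
        split_ifs with h
        · rw [v1, hψ]
          by_cases hs : s ∈ N
          · simp [hs]
          · simp only [hs, if_false]
            exact PHI_le _ h.le
        · exact bot_le
      · congr 1
        rw [mul_add, Real.exp_add, mul_one]
        ring

end

end Pool.Agent.K6.H16.QS
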