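import Pool.Agent.K6.H16.LC.A

/-!
Doubling of stationary waves, part C: submean inequality and a convexity lemma.
-/

set_option autoImplicit false
open MeasureTheory Filter Topology Metric
open scoped ENNReal Nat ContDiff

namespace Pool.Agent.K6.H16.QS

noncomputable section

/-- the submean inequality for `log √(|g|² + ε)` -/
lemma submean {g : ℂ → ℂ} (hg : Differentiable ℂ g) {ε : ℝ} (hε : 0 < ε) {r : ℝ} (hr : 0 < r) :
    1 / 2 * Real.log (‖g 0‖ ^ 2 + ε) ≤
      Real.circleAverage (fun z => 1 / 2 * Real.log (‖g z‖ ^ 2 + ε)) 0 r := by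
  obtain ⟨W, hW⟩ : ∃ W : ℂ → ℝ, W = fun z => ‖g z‖ ^ 2 + ε := ⟨_, rfl⟩
  have eW : ∀ z, ‖g z‖ ^ 2 + ε = W z := fun z => by rw [hW]
  have W1 : ∀ z, ε ≤ W z := fun z => by rw [hW]; nlinarith [sq_nonneg ‖g z‖]
  have W0 : ∀ z, 0 < W z := fun z => hε.trans_le (W1 z)
  have cW : Continuous W := by
    rw [hW]
    exact (hg.continuous.norm.pow 2).add continuous_const
  obtain ⟨H, hH⟩ : ∃ H : ℂ → ℂ, H = fun z => (ε : ℂ)⁻¹ * ((starRingEnd ℂ) (g 0) * g z + (ε : ℂ)) :=
    ⟨_, rfl⟩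
  have dH : Differentiable ℂ H := by
    rw [hH]
    exact ((hg.const_mul _).add_const _).const_mul _
  have H0 : H 0 = (((ε)⁻¹ * W 0 : ℝ) : ℂ) := by
    rw [hH, hW]
    simp only
    rw [← Complex.normSq_eq_conj_mul_self, Complex.normSq_eq_norm_sq]
    push_cast
    rfl
  have p0 : 0 < ε⁻¹ * W 0 := mul_pos (inv_pos.2 hε) (W0 0)
  have H0' : H 0 ≠ 0 := by
    rw [H0]
    exact_mod_cast p0.ne'
  have nH0 : ‖H 0‖ = ε⁻¹ * W 0 := by
    rw [H0, Complex.norm_real, Real.norm_eq_abs, abs_of_pos p0]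
  have cs : ∀ z, ‖H z‖ ^ 2 ≤ (ε⁻¹ * W 0) * (ε⁻¹ * W z) := by
    intro z
    have h1 : ‖H z‖ ≤ ε⁻¹ * (‖g 0‖ * ‖g z‖ + ε) := by
      rw [hH]
      simp only
      rw [norm_mul, norm_inv, Complex.norm_real, Real.norm_eq_abs, abs_of_pos hε]
      have : 0 < ε⁻¹ := inv_pos.2 hε
      gcongr
      refine (norm_add_le _ _).trans ?_
      rw [norm_mul, RCLike.norm_conj, Complex.norm_real, Real.norm_eq_abs, abs_of_pos hε]
    have h2 : ‖H z‖ ^ 2 ≤ (ε⁻¹ * (‖g 0‖ * ‖g z‖ + ε)) ^ 2 :=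
      pow_le_pow_left₀ (norm_nonneg _) h1 2
    refine h2.trans ?_
    have h3 : (‖g 0‖ * ‖g z‖ + ε) ^ 2 ≤ W 0 * W z := by
      rw [hW]
      simp only
      nlinarith [mul_nonneg hε.le (sq_nonneg (‖g 0‖ - ‖g z‖))]
    have h4 : 0 < ε⁻¹ ^ 2 := by positivity
    calc (ε⁻¹ * (‖g 0‖ * ‖g z‖ + ε)) ^ 2 = ε⁻¹ ^ 2 * (‖g 0‖ * ‖g z‖ + ε) ^ 2 := by ring
      _ ≤ ε⁻¹ ^ 2 * (W 0 * W z) := mul_le_mul_of_nonneg_left h3 h4.le
      _ = _ := by ring
  have J := LC.jensen dH hr H0' ∅ (by simp)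
  rw [Finset.sum_empty] at J
  have i1 : CircleIntegrable (fun z => Real.log ‖H z‖) 0 r :=
    MeromorphicOn.circleIntegrable_log_norm fun z _ => (dH.analyticAt z).meromorphicAt
  have cL2 : Continuous fun z => 1 / 2 * Real.log (W z) :=
    continuous_const.mul (cW.log fun z => (W0 z).ne')
  obtain ⟨c, hc⟩ : ∃ c, c = 1 / 2 * Real.log (W 0) - Real.log ε := ⟨_, rfl⟩
  have cc : Continuous fun _ : ℂ => c := continuous_const
  have i3 : CircleIntegrable (fun _ : ℂ => c) 0 r := cc.continuousOn.circleIntegrable hr.le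
  have i4 : CircleIntegrable (fun z => 1 / 2 * Real.log (W z)) 0 r :=
    cL2.continuousOn.circleIntegrable hr.le
  have i2 : CircleIntegrable ((fun _ : ℂ => c) + fun z => 1 / 2 * Real.log (W z)) 0 r :=
    (cc.add cL2).continuousOn.circleIntegrable hr.le
  have rhs : ∀ z, c + 1 / 2 * Real.log (W z) =
      1 / 2 * Real.log ((ε⁻¹ * W 0) * (ε⁻¹ * W z)) := by
    intro z
    rw [Real.log_mul p0.ne' (mul_pos (inv_pos.2 hε) (W0 z)).ne',
      Real.log_mul (inv_pos.2 hε).ne' (W0 0).ne', Real.log_mul (inv_pos.2 hε).ne' (W0 z).ne',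
      Real.log_inv, hc]
    ring
  have le : Real.circleAverage (fun z => Real.log ‖H z‖) 0 r ≤
      Real.circleAverage ((fun _ : ℂ => c) + fun z => 1 / 2 * Real.log (W z)) 0 r := by
    refine Real.circleAverage_mono i1 i2 fun z _ => ?_
    show Real.log ‖H z‖ ≤ c + 1 / 2 * Real.log (W z)
    rw [rhs z]
    rcases eq_or_ne (H z) 0 with h | h
    · rw [h, norm_zero, Real.log_zero]
      refine mul_nonneg (by norm_num) (Real.log_nonneg ?_)
      have a1 : 1 ≤ ε⁻¹ * W 0 := by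
        rw [inv_mul_eq_div, one_le_div hε]
        exact W1 0
      have a2 : 1 ≤ ε⁻¹ * W z := by
        rw [inv_mul_eq_div, one_le_div hε]
        exact W1 z
      nlinarith
    · have n0 : 0 < ‖H z‖ := norm_pos_iff.2 h
      have := Real.log_le_log (by positivity) (cs z)
      rw [Real.log_pow] at this
      push_cast at this
      linarith
  rw [Real.circleAverage_add i3 i4, Real.circleAverage_const] at le
  simp only [eW]
  rw [nH0, Real.log_mul (inv_pos.2 hε).ne' (W0 0).ne', Real.log_inv] at J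
  linarith

/-- a function with the submean property for the arcsine law and linear growth is Lipschitz in
one direction -/
lemma slope {u : ℝ → ℝ} (cu : Continuous u)
    (sm : ∀ t r : ℝ, 0 < r → u t ≤ (2 * Real.pi)⁻¹ * ∫ θ in (0 : ℝ)..2 * Real.pi,
      u (t + r * Real.sin θ)) {C K : ℝ} (gr : ∀ t, 0 ≤ t → u t ≤ C + K * t) : u 1 ≤ u 0 + K := by
  refine le_of_forall_pos_lt_add fun δ hδ => ?_
  by_contra hc
  push Not at hc
  obtain ⟨w, hw⟩ : ∃ w : ℝ → ℝ, w = fun t => u t - u 0 - (K + δ / 2) * t := ⟨_, rfl⟩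
  have cw : Continuous w := by
    rw [hw]; fun_prop
  have w0 : w 0 = 0 := by rw [hw]; simp
  have w1 : 0 < w 1 := by
    rw [hw]; simp only; linarith
  have dec : ∀ t, 0 ≤ t → w t ≤ (C - u 0) - δ / 2 * t := by
    intro t ht
    rw [hw]
    have := gr t ht
    simp only
    nlinarith
  obtain ⟨T, hT1, hT⟩ : ∃ T : ℝ, 1 < T ∧ ∀ t, T ≤ t → w t < w 1 := by
    obtain ⟨T, hT⟩ := exists_nat_gt (max 1 ((C - u 0) / (δ / 2)))
    refine ⟨T, (le_max_left _ _).trans_lt hT, fun t ht => ?_⟩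
    have h1 := dec t ((Nat.cast_nonneg T).trans ht)
    have h2 : (C - u 0) / (δ / 2) < t := ((le_max_right _ _).trans_lt hT).trans_le ht
    rw [div_lt_iff₀ (by positivity)] at h2
    linarith
  obtain ⟨t0, ht0, hm⟩ := isCompact_Icc.exists_isMaxOn (s := Set.Icc (0 : ℝ) T)
    ⟨1, by simp, hT1.le⟩ cw.continuousOn
  have mx : ∀ t, 0 ≤ t → w t ≤ w t0 := by
    intro t ht
    rcases le_or_gt t T with h | h
    · exact hm ⟨ht, h⟩
    · exact (hT t h.le).le.trans (hm ⟨by norm_num, hT1.le⟩)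
  have pos : 0 < w t0 := w1.trans_le (hm ⟨by norm_num, hT1.le⟩)
  have t0p : 0 < t0 := by
    rcases ht0.1.eq_or_lt with h | h
    · rw [← h, w0] at pos
      exact absurd pos (lt_irrefl _)
    · exact h
  have cws : Continuous fun θ : ℝ => w (t0 + t0 * Real.sin θ) := by fun_prop
  have cus : Continuous fun θ : ℝ => u (t0 + t0 * Real.sin θ) := by fun_prop
  have sw : w t0 ≤ (2 * Real.pi)⁻¹ * ∫ θ in (0 : ℝ)..2 * Real.pi, w (t0 + t0 * Real.sin θ) := by
    have h1 := sm t0 t0 t0p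
    have e : ∫ θ in (0 : ℝ)..2 * Real.pi, w (t0 + t0 * Real.sin θ) =
        (∫ θ in (0 : ℝ)..2 * Real.pi, u (t0 + t0 * Real.sin θ)) -
          2 * Real.pi * (u 0 + (K + δ / 2) * t0) := by
      have e1 : ∀ θ : ℝ, w (t0 + t0 * Real.sin θ) = u (t0 + t0 * Real.sin θ) -
          ((u 0 + (K + δ / 2) * t0) + (K + δ / 2) * t0 * Real.sin θ) := by
        intro θ
        rw [hw]; ring
      simp only [e1]
      have c2 : Continuous fun θ : ℝ => (K + δ / 2) * t0 * Real.sin θ := by fun_prop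
      have c3 : Continuous fun θ : ℝ => (u 0 + (K + δ / 2) * t0) +
        (K + δ / 2) * t0 * Real.sin θ := by fun_prop
      rw [intervalIntegral.integral_sub (cus.intervalIntegrable _ _) (c3.intervalIntegrable _ _),
        intervalIntegral.integral_add (continuous_const.intervalIntegrable _ _)
        (c2.intervalIntegrable _ _), intervalIntegral.integral_const_mul, integral_sin]
      simp
      ring
    rw [e]
    have p := Real.pi_pos
    have e2 : (2 * Real.pi)⁻¹ * ((∫ θ in (0 : ℝ)..2 * Real.pi, u (t0 + t0 * Real.sin θ)) -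
          2 * Real.pi * (u 0 + (K + δ / 2) * t0)) = (2 * Real.pi)⁻¹ *
          (∫ θ in (0 : ℝ)..2 * Real.pi, u (t0 + t0 * Real.sin θ)) -
          (u 0 + (K + δ / 2) * t0) := by
      field_simp
    rw [e2]
    rw [hw]
    simp only
    linarith
  have pp := Real.pi_pos
  have z : ∫ θ in (0 : ℝ)..2 * Real.pi, (w t0 - w (t0 + t0 * Real.sin θ)) ≤ 0 := by
    rw [intervalIntegral.integral_sub (continuous_const.intervalIntegrable _ _)
      (cws.intervalIntegrable _ _), intervalIntegral.integral_const, sub_zero, smul_eq_mul]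
    have : (2 * Real.pi) * w t0 ≤ ∫ θ in (0 : ℝ)..2 * Real.pi, w (t0 + t0 * Real.sin θ) := by
      have h := mul_le_mul_of_nonneg_left sw (by positivity : 0 ≤ 2 * Real.pi)
      rwa [mul_inv_cancel_left₀ (by positivity)] at h
    linarith
  have nn : ∀ θ : ℝ, 0 ≤ w t0 - w (t0 + t0 * Real.sin θ) := by
    intro θ
    have : 0 ≤ t0 + t0 * Real.sin θ := by nlinarith [Real.neg_one_le_sin θ]
    linarith [mx _ this]
  have cz : Continuous fun θ : ℝ => w t0 - w (t0 + t0 * Real.sin θ) := continuous_const.sub cws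
  have pos2 : 0 < ∫ θ in (0 : ℝ)..2 * Real.pi, (w t0 - w (t0 + t0 * Real.sin θ)) := by
    refine intervalIntegral.integral_pos (by positivity) cz.continuousOn (fun θ _ => nn θ)
      ⟨3 * Real.pi / 2, ⟨by positivity, by linarith⟩, ?_⟩
    have e : Real.sin (3 * Real.pi / 2) = -1 := by
      have : (3 * Real.pi / 2) = Real.pi / 2 + Real.pi := by ring
      rw [this, Real.sin_add_pi, Real.sin_pi_div_two]
    rw [e]
    simp only [mul_neg, mul_one, add_neg_cancel, w0, sub_zero]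
    exact pos
  linarith

end

end Pool.Agent.K6.H16.QS
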