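import Pool.Agent.K6.H16.QS.G
import Pool.Agent.K6.H16.QS.C

/-!
Doubling of stationary waves, part D: maxima over imaginary displacements.
-/

set_option autoImplicit false
open MeasureTheory Filter Topology Metric
open scoped ENNReal Nat ContDiff

namespace Pool.Agent.K6.H16.QS

open Pool.Agent.Y139.SW

noncomputable section

variable {d : ℕ}

/-- the basic functional -/
def N0 (ε : ℝ) (Φ : T d) (z : Fin d → ℂ) : ℝ := 1 / 2 * Real.log (‖Φ.1 [] z‖ ^ 2 + ε)

/-- the maximum over signed sums of imaginary displacements -/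
def NV (ε : ℝ) : List (E d) → T d → (Fin d → ℂ) → ℝ
  | [], Φ, z => N0 ε Φ z
  | v :: V, Φ, z => max (NV ε V Φ (z + im v)) (NV ε V Φ (z - im v))

/-- the total length -/
def len (V : List (E d)) : ℝ := (V.map norm).sum

lemma len_nonneg (V : List (E d)) : 0 ≤ len V := by
  refine List.sum_nonneg fun x hx => ?_
  obtain ⟨v, _, rfl⟩ := List.mem_map.1 hx
  exact norm_nonneg v

variable {ε : ℝ}

lemma NV_cont (hε : 0 < ε) (Φ : T d) : ∀ V : List (E d), Continuous (NV ε V Φ)
  | [] => by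
    show Continuous fun z => 1 / 2 * Real.log (‖Φ.1 [] z‖ ^ 2 + ε)
    refine continuous_const.mul (Continuous.log ?_ fun z => by positivity)
    exact ((Φ.2.cont []).norm.pow 2).add continuous_const
  | v :: V => by
    show Continuous fun z => max (NV ε V Φ (z + im v)) (NV ε V Φ (z - im v))
    have := NV_cont hε Φ V
    exact (this.comp (by fun_prop)).max (this.comp (by fun_prop))

lemma NV_meas (z : Fin d → ℂ) : ∀ V : List (E d), Measurable fun Φ : T d => NV ε V Φ z := by
  intro V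
  induction V generalizing z with
  | nil =>
    show Measurable fun Φ : T d => 1 / 2 * Real.log (‖Φ.1 [] z‖ ^ 2 + ε)
    exact ((((ev_me [] z).norm.pow_const 2).add_const _).log).const_mul _
  | cons v V ih =>
    show Measurable fun Φ : T d => max (NV ε V Φ (z + im v)) (NV ε V Φ (z - im v))
    exact (ih _).max (ih _)

lemma NV_sh (x : E d) (Φ : T d) (z : Fin d → ℂ) : ∀ V : List (E d),
    NV ε V (sh x Φ) z = NV ε V Φ (z + io x) := by
  intro V
  induction V generalizing z with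
  | nil => rfl
  | cons v V ih =>
    show max (NV ε V (sh x Φ) (z + im v)) (NV ε V (sh x Φ) (z - im v)) =
      max (NV ε V Φ (z + io x + im v)) (NV ε V Φ (z + io x - im v))
    rw [ih, ih]
    congr 2
    · abel
    · abel

/-- complex conjugation -/
def cj (z : Fin d → ℂ) : Fin d → ℂ := fun i => (starRingEnd ℂ) (z i)

lemma cj_add (z w : Fin d → ℂ) : cj (z + w) = cj z + cj w := by
  funext i; simp [cj]

lemma cj_sub (z w : Fin d → ℂ) : cj (z - w) = cj z - cj w := by
  funext i; simp [cj]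

lemma cj_im (v : E d) : cj (im v) = -im v := by
  funext i; simp [cj, im, io]

lemma NV_cj (Φ : T d) (z : Fin d → ℂ) : ∀ V : List (E d), NV ε V Φ (cj z) = NV ε V Φ z := by
  intro V
  induction V generalizing z with
  | nil =>
    show 1 / 2 * Real.log (‖Φ.1 [] (cj z)‖ ^ 2 + ε) = 1 / 2 * Real.log (‖Φ.1 [] z‖ ^ 2 + ε)
    have := Φ.2.conj [] z
    unfold cj
    rw [this, RCLike.norm_conj]
  | cons v V ih =>
    show max (NV ε V Φ (cj z + im v)) (NV ε V Φ (cj z - im v)) =
      max (NV ε V Φ (z + im v)) (NV ε V Φ (z - im v))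
    have e1 : cj z + im v = cj (z - im v) := by rw [cj_sub, cj_im, sub_neg_eq_add]
    have e2 : cj z - im v = cj (z + im v) := by rw [cj_add, cj_im, ← sub_eq_add_neg]
    rw [e1, e2, ih, ih, max_comm]

lemma NV_lb (hε : 0 < ε) (Φ : T d) (z : Fin d → ℂ) : ∀ V : List (E d),
    1 / 2 * Real.log ε ≤ NV ε V Φ z := by
  intro V
  induction V generalizing z with
  | nil =>
    show 1 / 2 * Real.log ε ≤ 1 / 2 * Real.log (‖Φ.1 [] z‖ ^ 2 + ε)
    have := Real.log_le_log hε (by nlinarith [sq_nonneg ‖Φ.1 [] z‖] : ε ≤ ‖Φ.1 [] z‖ ^ 2 + ε)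
    linarith
  | cons v V ih => exact (ih _).trans (le_max_left _ _)

lemma NV_ub (hε : 0 < ε) (Φ : T d) {b : ℝ} (z : Fin d → ℂ) : ∀ V : List (E d),
    (∀ z', ‖z'‖ ≤ ‖z‖ + len V → ‖Φ.1 [] z'‖ ≤ b) →
    NV ε V Φ z ≤ 1 / 2 * Real.log (b ^ 2 + ε) := by
  intro V
  induction V generalizing z with
  | nil =>
    intro h
    show 1 / 2 * Real.log (‖Φ.1 [] z‖ ^ 2 + ε) ≤ _
    have h1 := h z (by simp [len])
    have : Real.log (‖Φ.1 [] z‖ ^ 2 + ε) ≤ Real.log (b ^ 2 + ε) := by
      refine Real.log_le_log (by positivity) ?_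
      have := pow_le_pow_left₀ (norm_nonneg _) h1 2
      linarith
    linarith
  | cons v V ih =>
    intro h
    have hl : len (v :: V) = ‖v‖ + len V := by simp [len]
    refine max_le (ih _ fun z' hz' => h z' ?_) (ih _ fun z' hz' => h z' ?_)
    · have := norm_add_le z (im v)
      have := norm_im v
      rw [hl]; linarith
    · have := norm_sub_le z (im v)
      have := norm_im v
      rw [hl]; linarith

lemma NV_sub (hε : 0 < ε) (Φ : T d) (w : Fin d → ℂ) {r : ℝ} (hr : 0 < r) (z : Fin d → ℂ) :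
    ∀ V : List (E d), NV ε V Φ z ≤
      Real.circleAverage (fun ζ : ℂ => NV ε V Φ (z + ζ • w)) 0 r := by
  intro V
  induction V generalizing z with
  | nil =>
    have h := submean (Φ.2.diff [] z w) hε hr
    simp only [zero_smul, add_zero] at h
    exact h
  | cons v V ih =>
    have c : ∀ z : Fin d → ℂ, Continuous fun ζ : ℂ => NV ε V Φ (z + ζ • w) := fun z =>
      (NV_cont hε Φ V).comp (by fun_prop)
    have cc : Continuous fun ζ : ℂ => NV ε (v :: V) Φ (z + ζ • w) :=
      (NV_cont hε Φ (v :: V)).comp (by fun_prop)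
    refine max_le ((ih _).trans ?_) ((ih _).trans ?_)
    · refine Real.circleAverage_mono ((c _).continuousOn.circleIntegrable hr.le)
        (cc.continuousOn.circleIntegrable hr.le) fun ζ _ => ?_
      have e : z + im v + ζ • w = z + ζ • w + im v := by abel
      rw [e]
      exact le_max_left _ _
    · refine Real.circleAverage_mono ((c _).continuousOn.circleIntegrable hr.le)
        (cc.continuousOn.circleIntegrable hr.le) fun ζ _ => ?_
      have e : z - im v + ζ • w = z + ζ • w - im v := by abel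
      rw [e]
      exact le_max_right _ _

lemma log_bd (hε : 0 < ε) {b : ℝ} (hb : 0 ≤ b) :
    1 / 2 * Real.log (b ^ 2 + ε) ≤ Real.log (b + √ε) := by
  have h : b ^ 2 + ε ≤ (b + √ε) ^ 2 := by
    have := Real.sq_sqrt hε.le
    have := Real.sqrt_nonneg ε
    nlinarith [mul_nonneg hb this]
  have h2 := Real.log_le_log (by positivity) h
  rw [Real.log_pow] at h2
  push_cast at h2
  linarith

/-- the laws considered -/
structure Law (Q : Measure (T d)) (σ : ℝ) : Prop where
  prob : IsProbabilityMeasure Q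
  mp : ∀ x, MeasurePreserving (sh x) Q Q
  pos : 0 ≤ σ
  bd : ∀ r : ℝ, 0 ≤ r → ∫⁻ Φ, Bs r Φ ∂Q ≤ ENNReal.ofReal (σ * Real.exp (d * r))

variable {Q : Measure (T d)} {σ : ℝ}

/-- the real supremum -/
def Br (r : ℝ) (Φ : T d) : ℝ := (Bs r Φ).toReal

lemma Law.ae (H : Law Q σ) {r : ℝ} (hr : 0 ≤ r) :
    ∀ᵐ Φ ∂Q, ∀ z, ‖z‖ ≤ r → ‖Φ.1 [] z‖ ≤ Br r Φ := by
  filter_upwards [ae_lt_top (Bs_me r) (ne_top_of_le_ne_top ENNReal.ofReal_ne_top
    (H.bd r hr))] with Φ h z hz
  have := ENNReal.toReal_mono h.ne (le_Bs r Φ z hz)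
  rwa [toReal_enorm] at this

lemma Law.ib (H : Law Q σ) {r : ℝ} (hr : 0 ≤ r) : Integrable (Br (d := d) r) Q :=
  integrable_toReal_of_lintegral_ne_top (Bs_me r).aemeasurable
    (ne_top_of_le_ne_top ENNReal.ofReal_ne_top (H.bd r hr))

lemma Law.eb (H : Law Q σ) {r : ℝ} (hr : 0 ≤ r) : ∫ Φ, Br r Φ ∂Q ≤ σ * Real.exp (d * r) := by
  unfold Br
  rw [integral_toReal (Bs_me r).aemeasurable (ae_lt_top (Bs_me r)
    (ne_top_of_le_ne_top ENNReal.ofReal_ne_top (H.bd r hr)))]
  have := H.pos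
  exact ENNReal.toReal_le_of_le_ofReal (by positivity) (H.bd r hr)

/-- the dominating function -/
def dom (ε r : ℝ) (Φ : T d) : ℝ := |1 / 2 * Real.log ε| + (Br r Φ + √ε)

lemma Law.idom (H : Law Q σ) {r : ℝ} (hr : 0 ≤ r) : Integrable (dom (d := d) ε r) Q := by
  have := H.prob
  exact (integrable_const _).add ((H.ib hr).add (integrable_const _))

lemma Law.le_dom (H : Law Q σ) (hε : 0 < ε) (V : List (E d)) {r : ℝ} (hr : 0 ≤ r) :
    ∀ᵐ Φ ∂Q, ∀ z, ‖z‖ ≤ r → |NV ε V Φ z| ≤ dom ε (r + len V) Φ := by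
  filter_upwards [H.ae (add_nonneg hr (len_nonneg V))] with Φ h z hz
  have b0 : 0 ≤ Br (r + len V) Φ := ENNReal.toReal_nonneg
  have s0 := Real.sqrt_pos.2 hε
  have h1 := NV_lb hε Φ z V
  have h2 := (NV_ub hε Φ z V fun z' hz' => h z' (hz'.trans (by linarith))).trans
    (log_bd hε b0)
  have h3 : Real.log (Br (r + len V) Φ + √ε) ≤ Br (r + len V) Φ + √ε := by
    have := Real.log_le_sub_one_of_pos (by positivity : 0 < Br (r + len V) Φ + √ε)
    linarith
  unfold dom
  rw [abs_le]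
  constructor
  · have := neg_abs_le (1 / 2 * Real.log ε)
    linarith
  · have := abs_nonneg (1 / 2 * Real.log ε)
    linarith

lemma Law.iNV (H : Law Q σ) (hε : 0 < ε) (V : List (E d)) (z : Fin d → ℂ) :
    Integrable (fun Φ => NV ε V Φ z) Q := by
  refine Integrable.mono' (H.idom (ε := ε) (add_nonneg (norm_nonneg z) (len_nonneg V)))
    (NV_meas z V).aestronglyMeasurable ?_
  filter_upwards [H.le_dom hε V (norm_nonneg z)] with Φ h
  exact h z le_rfl

lemma Law.st (H : Law Q σ) (V : List (E d)) (z : Fin d → ℂ) (x : E d) :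
    ∫ Φ, NV ε V Φ (z + io x) ∂Q = ∫ Φ, NV ε V Φ z ∂Q := by
  have h1 := integral_map (μ := Q) (H.mp x).measurable.aemeasurable
    (f := fun Φ => NV ε V Φ z) (NV_meas z V).aestronglyMeasurable
  rw [(H.mp x).map_eq] at h1
  rw [h1]
  simp only [NV_sh]

lemma Law.cont (H : Law Q σ) (hε : 0 < ε) (V : List (E d)) {γ : ℝ → Fin d → ℂ}
    (cγ : Continuous γ) : Continuous fun t => ∫ Φ, NV ε V Φ (γ t) ∂Q := by
  rw [continuous_iff_continuousAt]
  intro t0
  have r0 : 0 ≤ ‖γ t0‖ + 1 := by positivity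
  refine continuousAt_of_dominated (bound := dom ε (‖γ t0‖ + 1 + len V)) ?_ ?_ (H.idom
    (add_nonneg r0 (len_nonneg V))) ?_
  · exact Eventually.of_forall fun t => (NV_meas _ V).aestronglyMeasurable
  · have : ∀ᶠ t in 𝓝 t0, ‖γ t‖ < ‖γ t0‖ + 1 :=
      (cγ.norm.tendsto t0).eventually (gt_mem_nhds (by linarith))
    filter_upwards [this] with t ht
    filter_upwards [H.le_dom hε V r0] with Φ h
    exact h _ ht.le
  · exact ae_of_all _ fun Φ => ((NV_cont hε Φ V).comp cγ).continuousAt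

lemma Law.grow (H : Law Q σ) (hε : 0 < ε) (V : List (E d)) (v : E d) {t : ℝ} (ht : 0 ≤ t) :
    ∫ Φ, NV ε V Φ (im (t • v)) ∂Q ≤ (d * len V + (σ + √ε)) + d * ‖v‖ * t := by
  have := H.prob
  obtain ⟨r, hr⟩ : ∃ r, r = t * ‖v‖ + len V := ⟨_, rfl⟩
  have lV := len_nonneg V
  have r0 : 0 ≤ r := by rw [hr]; positivity
  have a0 : 0 ≤ d * r := by positivity
  have s0 := Real.sqrt_pos.2 hε
  have e1 : Real.exp (-(d * r)) ≤ 1 := Real.exp_le_one_iff.2 (by linarith)
  have e0 := Real.exp_pos (-(d * r))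
  have i1 : Integrable (fun Φ : T d => d * r + (Br r Φ + √ε) * Real.exp (-(d * r))) Q :=
    (integrable_const _).add (((H.ib r0).add (integrable_const _)).mul_const _)
  calc ∫ Φ, NV ε V Φ (im (t • v)) ∂Q ≤
      ∫ Φ, (d * r + (Br r Φ + √ε) * Real.exp (-(d * r))) ∂Q := by
        refine integral_mono_ae (H.iNV hε V _) i1 ?_
        filter_upwards [H.ae r0] with Φ h
        have b0 : 0 ≤ Br r Φ := ENNReal.toReal_nonneg
        refine ((NV_ub hε Φ _ V fun z' hz' => h z' (hz'.trans ?_)).trans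
          (log_bd hε b0)).trans (LC.log_le (by positivity) a0)
        have := norm_im (t • v)
        rw [norm_smul, Real.norm_eq_abs, abs_of_nonneg ht] at this
        rw [hr]
        linarith
    _ = d * r + (∫ Φ, Br r Φ ∂Q + √ε) * Real.exp (-(d * r)) := by
        have i2 : Integrable (fun Φ : T d => Br r Φ + √ε) Q :=
          (H.ib r0).add (integrable_const _)
        rw [integral_add (integrable_const _) (i2.mul_const _),
          integral_mul_const (Real.exp (-(d * r))) fun Φ : T d => Br r Φ + √ε,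
          integral_add (H.ib r0) (integrable_const _)]
        simp
    _ ≤ d * r + (σ + √ε) := by
        have h1 := H.eb r0
        have h2 : (∫ Φ, Br r Φ ∂Q + √ε) * Real.exp (-(d * r)) ≤
            (σ * Real.exp (d * r) + √ε) * Real.exp (-(d * r)) :=
          mul_le_mul_of_nonneg_right (by linarith) e0.le
        have h3 : (σ * Real.exp (d * r) + √ε) * Real.exp (-(d * r)) =
            σ + √ε * Real.exp (-(d * r)) := by
          rw [add_mul, mul_assoc, ← Real.exp_add, add_neg_cancel, Real.exp_zero, mul_one]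
        have h4 : √ε * Real.exp (-(d * r)) ≤ √ε := by nlinarith
        linarith
    _ = _ := by rw [hr]; ring

lemma circ_pt (t r θ : ℝ) (v : E d) : im (t • v) + circleMap 0 r θ • io v =
    im ((t + r * Real.sin θ) • v) + io ((r * Real.cos θ) • v) := by
  funext i
  simp only [im, io, Pi.add_apply, Pi.smul_apply, smul_eq_mul, PiLp.smul_apply, circleMap_zero]
  rw [Complex.exp_mul_I]
  push_cast
  ring

lemma Law.sub (H : Law Q σ) (hε : 0 < ε) (V : List (E d)) (v : E d) (t r : ℝ) (hr : 0 < r) :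
    ∫ Φ, NV ε V Φ (im (t • v)) ∂Q ≤ (2 * Real.pi)⁻¹ * ∫ θ in (0 : ℝ)..2 * Real.pi,
      ∫ Φ, NV ε V Φ (im ((t + r * Real.sin θ) • v)) ∂Q := by
  have := H.prob
  obtain ⟨γ, hγ⟩ : ∃ γ : ℝ → Fin d → ℂ, γ = fun θ => im (t • v) + circleMap 0 r θ • io v :=
    ⟨_, rfl⟩
  have cγ : Continuous γ := by
    rw [hγ]
    exact continuous_const.add ((continuous_circleMap 0 r).smul continuous_const)
  have nγ : ∀ θ, ‖γ θ‖ ≤ ‖im (t • v)‖ + r * ‖io v‖ := by
    intro θ
    rw [hγ]
    refine (norm_add_le _ _).trans ?_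
    rw [norm_smul, norm_circleMap_zero, abs_of_pos hr]
  obtain ⟨ρ, hρ⟩ : ∃ ρ, ρ = ‖im (t • v)‖ + r * ‖io v‖ := ⟨_, rfl⟩
  rw [← hρ] at nγ
  have ρ0 : 0 ≤ ρ := by rw [hρ]; positivity
  have e : ∀ θ : ℝ, ∫ Φ, NV ε V Φ (im ((t + r * Real.sin θ) • v)) ∂Q =
      ∫ Φ, NV ε V Φ (γ θ) ∂Q := by
    intro θ
    rw [hγ]
    simp only
    rw [circ_pt, H.st]
  simp only [e]
  have mj : Measurable (Function.uncurry fun (θ : ℝ) (Φ : T d) => NV ε V Φ (γ θ)) :=
    measurable_uncurry_of_continuous_of_measurable (u := fun θ Φ => NV ε V Φ (γ θ))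
      (fun Φ => (NV_cont hε Φ V).comp cγ) fun θ => NV_meas _ V
  have ij : Integrable (Function.uncurry fun (θ : ℝ) (Φ : T d) => NV ε V Φ (γ θ))
      ((volume.restrict (Set.Ioc (0 : ℝ) (2 * Real.pi))).prod Q) := by
    have i1 : Integrable (fun p : ℝ × T d => dom ε (ρ + len V) p.2)
        ((volume.restrict (Set.Ioc (0 : ℝ) (2 * Real.pi))).prod Q) :=
      (H.idom (ε := ε) (add_nonneg ρ0 (len_nonneg V))).comp_snd _
    refine Integrable.mono' i1 mj.aestronglyMeasurable ?_
    have h1 : ∀ᵐ p : ℝ × T d ∂((volume.restrict (Set.Ioc (0 : ℝ) (2 * Real.pi))).prod Q),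
        ∀ z, ‖z‖ ≤ ρ → |NV ε V p.2 z| ≤ dom ε (ρ + len V) p.2 :=
      Measure.quasiMeasurePreserving_snd.ae (H.le_dom hε V ρ0)
    filter_upwards [h1] with p hp
    exact hp _ (nγ p.1)
  rw [intervalIntegral.integral_of_le (by positivity), integral_integral_swap ij,
    ← integral_const_mul]
  refine integral_mono (H.iNV hε V _) (ij.integral_prod_right.const_mul _) fun Φ => ?_
  have h := NV_sub hε Φ (io v) hr (im (t • v)) V
  unfold Real.circleAverage at h
  rw [smul_eq_mul, intervalIntegral.integral_of_le (by positivity)] at h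
  refine h.trans (le_of_eq ?_)
  rw [hγ]

/-- the effect of one displacement -/
lemma Law.one (H : Law Q σ) (hε : 0 < ε) (V : List (E d)) (v : E d) :
    ∫ Φ, NV ε V Φ (im v) ∂Q ≤ ∫ Φ, NV ε V Φ 0 ∂Q + d * ‖v‖ := by
  have c : Continuous fun t : ℝ => ∫ Φ, NV ε V Φ (im (t • v)) ∂Q := by
    refine H.cont hε V (γ := fun t : ℝ => im (t • v)) (im_cont.comp ?_)
    exact continuous_id.smul continuous_const
  have h := slope (u := fun t : ℝ => ∫ Φ, NV ε V Φ (im (t • v)) ∂Q) c
    (fun t r hr => H.sub hε V v t r hr) (fun t ht => H.grow hε V v ht)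
  simp only [one_smul, zero_smul] at h
  have e : im (0 : E d) = 0 := by
    funext i; simp [im, io]
  rw [e] at h
  exact h

/-- the maximum over signed sums of imaginary displacements -/
theorem Law.max (H : Law Q σ) (hε : 0 < ε) : ∀ V : List (E d),
    ∫ Φ, NV ε V Φ 0 ∂Q ≤ ∫ Φ, N0 ε Φ 0 ∂Q + d * len V
  | [] => by simp [len, NV]
  | v :: V => by
    have ih := H.max hε V
    have e : ∀ Φ : T d, NV ε (v :: V) Φ 0 = NV ε V Φ (im v) := by
      intro Φ
      show Max.max (NV ε V Φ (0 + im v)) (NV ε V Φ (0 - im v)) = _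
      have e1 : (0 : Fin d → ℂ) - im v = cj (im v) := by rw [cj_im, zero_sub]
      rw [e1, NV_cj, zero_add, max_self]
    simp only [e]
    have h := H.one hε V v
    have hl : len (v :: V) = ‖v‖ + len V := by simp [len]
    rw [hl]
    linarith

end

end Pool.Agent.K6.H16.QS
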