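import Pool.Agent.K6.H16.QS.G

/-!
Doubling of stationary waves, part H: the bound on the real ball by the imaginary one.
-/

set_option autoImplicit false
open MeasureTheory Filter Topology Metric
open scoped ENNReal Nat ContDiff

namespace Pool.Agent.K6.H16.QS

open Pool.Agent.Y139.SW

noncomputable section

variable {d : ℕ}

/-- iterated gradient estimate -/
lemma grads {Φ : List (Fin d) → (Fin d → ℂ) → ℂ} (H : Ent Φ) {δ B : ℝ} (hδ : 0 < δ) :
    ∀ (β : List (Fin d)) (c : E d), (∀ η : E d, ‖η - c‖ ≤ β.length * δ → ‖Φ [] (im η)‖ ≤ B) →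
      ‖Φ β (im c)‖ ≤ ((13 + 2 * d) / δ) ^ β.length * B
  | [], c, h => by
    simpa using h c (by simp)
  | l :: β, c, h => by
    have h1 : ∀ η : E d, ‖η - c‖ ≤ δ → ‖Φ β (im η)‖ ≤ ((13 + 2 * d) / δ) ^ β.length * B := by
      intro η hη
      refine grads H hδ β η fun η' hη' => h η' ?_
      have : ‖η' - c‖ ≤ ‖η' - η‖ + ‖η - c‖ := by
        have := norm_add_le (η' - η) (η - c)
        simpa using this
      rw [List.length_cons]
      push_cast
      linarith
    refine (grad H β c hδ h1 l).trans (le_of_eq ?_)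
    rw [List.length_cons, pow_succ]
    ring

/-- the iterated derivative along `w` -/
def Lk (Φ : List (Fin d) → (Fin d → ℂ) → ℂ) : ℕ → List (Fin d) → (Fin d → ℂ) →
    (Fin d → ℂ) → ℂ
  | 0, α, _, z => Φ α z
  | k + 1, α, w, z => ∑ j, w j * Lk Φ k (j :: α) w z

lemma Lk_der {Φ : List (Fin d) → (Fin d → ℂ) → ℂ} (H : Ent Φ) (w : Fin d → ℂ) (k : ℕ) :
    ∀ (α : List (Fin d)) (ζ : ℂ), HasDerivAt (fun ζ : ℂ => Lk Φ k α w (ζ • w))
      (Lk Φ (k + 1) α w (ζ • w)) ζ := by
  induction k with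
  | zero =>
    intro α ζ
    have h := H.der α 0 w ζ
    simp only [zero_add] at h
    exact h
  | succ k ih =>
    intro α ζ
    show HasDerivAt (fun ζ : ℂ => ∑ j, w j * Lk Φ k (j :: α) w (ζ • w))
      (∑ j, w j * Lk Φ (k + 1) (j :: α) w (ζ • w)) ζ
    exact HasDerivAt.fun_sum fun j _ => (ih (j :: α) ζ).const_mul _

lemma Lk_le {Φ : List (Fin d) → (Fin d → ℂ) → ℂ} (w z : Fin d → ℂ) (M : ℝ) (k : ℕ) :
    ∀ α : List (Fin d), (∀ β : List (Fin d), β.length = k + α.length → ‖Φ β z‖ ≤ M) →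
      ‖Lk Φ k α w z‖ ≤ (∑ j, ‖w j‖) ^ k * M := by
  induction k with
  | zero =>
    intro α h
    simpa [Lk] using h α (by simp)
  | succ k ih =>
    intro α h
    show ‖∑ j, w j * Lk Φ k (j :: α) w z‖ ≤ _
    refine (norm_sum_le _ _).trans ?_
    have : ∀ j, ‖w j * Lk Φ k (j :: α) w z‖ ≤ ‖w j‖ * ((∑ j, ‖w j‖) ^ k * M) := by
      intro j
      rw [norm_mul]
      refine mul_le_mul_of_nonneg_left (ih (j :: α) fun β hβ => h β ?_) (norm_nonneg _)
      rw [hβ, List.length_cons]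
      ring
    refine (Finset.sum_le_sum fun j _ => this j).trans (le_of_eq ?_)
    rw [← Finset.sum_mul, pow_succ]
    ring

lemma sum_abs_le (w : E d) : ∑ j, ‖io w j‖ ≤ d * ‖w‖ := by
  have : ∀ j, ‖io w j‖ ≤ ‖w‖ := fun j => (norm_le_pi_norm (io w) j).trans (norm_io w)
  refine (Finset.sum_le_sum fun j _ => this j).trans ?_
  simp

/-- the real ball is controlled by the imaginary ball -/
theorem real_le {Φ : List (Fin d) → (Fin d → ℂ) → ℂ} (H : Ent Φ) {R B : ℝ} (hR : 0 < R)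
    (hB : ∀ η : E d, ‖η‖ ≤ R → ‖Φ [] (im η)‖ ≤ B) (w : E d)
    (hw : 6 * d * (13 + 2 * d) * ‖w‖ ≤ R) : ‖Φ [] (io w)‖ ≤ 2 * B := by
  have i0 : im (0 : E d) = 0 := by
    funext i; simp [im, io]
  have B0 : 0 ≤ B := (norm_nonneg _).trans (hB 0 (by simpa using hR.le))
  obtain ⟨g, hg⟩ : ∃ g : ℂ → ℂ, g = fun ζ => Φ [] (ζ • io w) := ⟨_, rfl⟩
  have it : ∀ k : ℕ, iteratedDeriv k g = fun ζ => Lk Φ k [] (io w) (ζ • io w) := by
    intro k
    induction k with
    | zero => rw [iteratedDeriv_zero, hg]; rfl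
    | succ k ih =>
      rw [iteratedDeriv_succ, ih]
      funext ζ
      exact (Lk_der H (io w) k [] ζ).deriv
  have dg : Differentiable ℂ g := by
    intro ζ
    have := (Lk_der H (io w) 0 [] ζ).differentiableAt
    rw [hg]
    exact this
  have tay := Complex.hasSum_taylorSeries_of_entire dg 0 1
  have e1 : g 1 = Φ [] (io w) := by rw [hg]; simp
  rw [e1] at tay
  have term : ∀ k : ℕ, ‖((k ! : ℂ))⁻¹ • ((1 : ℂ) - 0) ^ k • iteratedDeriv k g 0‖ ≤
      (1 / 2) ^ k * B := by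
    intro k
    rw [it k, sub_zero, one_pow, one_smul]
    simp only [zero_smul]
    rw [norm_smul, norm_inv, Complex.norm_natCast]
    rcases Nat.eq_zero_or_pos k with rfl | hk
    · have := hB 0 (by simpa using hR.le)
      rw [i0] at this
      simpa [Lk] using this
    · have k0 : (0 : ℝ) < k := by exact_mod_cast hk
      obtain ⟨δ, hδ⟩ : ∃ δ, δ = R / k := ⟨_, rfl⟩
      have δ0 : 0 < δ := by rw [hδ]; positivity
      have h1 : ∀ β : List (Fin d), β.length = k + ([] : List (Fin d)).length →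
          ‖Φ β 0‖ ≤ ((13 + 2 * d) / δ) ^ k * B := by
        intro β hβ
        rw [List.length_nil, add_zero] at hβ
        have := grads H δ0 β 0 (B := B) fun η hη => hB η (by
          rw [sub_zero, hβ, hδ, mul_div_cancel₀ _ k0.ne'] at hη
          exact hη)
        rw [i0, hβ] at this
        exact this
      have h2 := Lk_le (io w) 0 _ k [] h1
      have f0 : (0 : ℝ) < k ! := by positivity
      have h3 : (k : ℝ) ^ k / k ! ≤ Real.exp 1 ^ k := by
        have := Real.pow_div_factorial_le_exp (k : ℝ) k0.le k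
        rwa [← Real.exp_one_pow] at this
      have s0 : 0 ≤ ∑ j, ‖io w j‖ := Finset.sum_nonneg fun j _ => norm_nonneg _
      have h4 : ((k ! : ℝ))⁻¹ * ((∑ j, ‖io w j‖) ^ k * (((13 + 2 * d) / δ) ^ k * B)) =
          ((∑ j, ‖io w j‖) * ((13 + 2 * d) / R)) ^ k * ((k : ℝ) ^ k / k !) * B := by
        rw [hδ]
        simp only [mul_pow, div_pow]
        field_simp
      have h5 : (∑ j, ‖io w j‖) * ((13 + 2 * d) / R) * Real.exp 1 ≤ 1 / 2 := by
        have e3 : Real.exp 1 ≤ 3 := by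
          have := Real.exp_one_lt_d9
          linarith
        have a1 := sum_abs_le w
        have a2 : (∑ j, ‖io w j‖) * ((13 + 2 * d) / R) ≤ 1 / 6 := by
          rw [mul_div_assoc', div_le_iff₀ hR]
          nlinarith [Nat.cast_nonneg (α := ℝ) d]
        have a3 : 0 ≤ (∑ j, ‖io w j‖) * ((13 + 2 * (d : ℝ)) / R) := by positivity
        nlinarith [Real.exp_pos 1]
      calc ((k ! : ℝ))⁻¹ * ‖Lk Φ k [] (io w) 0‖ ≤
          ((k ! : ℝ))⁻¹ * ((∑ j, ‖io w j‖) ^ k * (((13 + 2 * d) / δ) ^ k * B)) := by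
            gcongr
        _ = ((∑ j, ‖io w j‖) * ((13 + 2 * d) / R)) ^ k * ((k : ℝ) ^ k / k !) * B := h4
        _ ≤ ((∑ j, ‖io w j‖) * ((13 + 2 * d) / R)) ^ k * (Real.exp 1 ^ k) * B := by
            gcongr
        _ = ((∑ j, ‖io w j‖) * ((13 + 2 * d) / R) * Real.exp 1) ^ k * B := by
            rw [mul_pow _ (Real.exp 1)]
        _ ≤ (1 / 2) ^ k * B := by
            gcongr
  have hs : HasSum (fun k : ℕ => (1 / 2 : ℝ) ^ k * B) (2 * B) := by
    have := hasSum_geometric_two.mul_right B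
    simpa using this
  exact tay.norm_le_of_bounded hs term

end

end Pool.Agent.K6.H16.QS
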