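import Pool.Agent.K6.H16.QS.A

/-!
Doubling of stationary waves, part K: a nonnegative kernel which annihilates the solutions of the
Helmholtz equation.
-/

set_option autoImplicit false
open MeasureTheory Filter Topology Metric
open scoped ENNReal ContDiff

namespace Pool.Agent.K6.H16.QS

open Pool.Agent.Y139.SW

noncomputable section

lemma pos_pow_der (n : ℕ) (x : ℝ) :
    HasDerivAt (fun x : ℝ => max x 0 ^ (n + 2)) ((n + 2) * max x 0 ^ (n + 1)) x := by
  rcases lt_trichotomy x 0 with h | h | h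
  · have e : (fun x : ℝ => max x 0 ^ (n + 2)) =ᶠ[𝓝 x] fun _ => 0 := by
      filter_upwards [gt_mem_nhds h] with y hy
      have hy' : y < 0 := hy
      rw [max_eq_right hy'.le, zero_pow (by omega)]
    rw [max_eq_right h.le, zero_pow (by omega), mul_zero]
    exact (hasDerivAt_const x (0 : ℝ)).congr_of_eventuallyEq e
  · subst h
    have O : (fun x : ℝ => max x 0 ^ (n + 2)) =O[𝓝 0] fun x => ‖x - 0‖ ^ (n + 2) := by
      refine Asymptotics.IsBigO.of_bound 1 (Eventually.of_forall fun y => ?_)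
      rw [one_mul, norm_pow, norm_pow, norm_norm, sub_zero]
      refine pow_le_pow_left₀ (norm_nonneg _) ?_ _
      rw [Real.norm_eq_abs, Real.norm_eq_abs]
      rcases le_total y 0 with hy | hy
      · rw [max_eq_right hy, abs_zero]; exact abs_nonneg _
      · rw [max_eq_left hy]
    have h := (O.hasFDerivAt (𝕜 := ℝ) (by omega)).hasDerivAt
    simpa using h
  · have e : (fun x : ℝ => max x 0 ^ (n + 2)) =ᶠ[𝓝 x] fun x => x ^ (n + 2) := by
      filter_upwards [lt_mem_nhds h] with y hy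
      have hy' : 0 < y := hy
      rw [max_eq_left hy'.le]
    rw [max_eq_left h.le]
    have := hasDerivAt_pow (n + 2) x
    push_cast at this
    exact this.congr_of_eventuallyEq e

variable {d : ℕ}

/-- the constant -/
def Ad (d : ℕ) : ℝ := ((d : ℝ) + 6) ^ 2

/-- the cutoff variable -/
def uu (y : E d) : ℝ := max (Ad d - ‖y‖ ^ 2) 0

/-- the kernel -/
def kap (y : E d) : ℝ := uu y ^ 2 * (uu y ^ 2 - 8 * (d + 6) * uu y + 48 * Ad d)

lemma uu_cont : Continuous (uu (d := d)) := by
  unfold uu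
  fun_prop

lemma kap_cont : Continuous (kap (d := d)) := by
  have := uu_cont (d := d)
  unfold kap
  fun_prop

lemma kap_fac (u : ℝ) : (d + 6 : ℝ) ^ 2 ≤ u ^ 2 - 8 * (d + 6) * u + 48 * Ad d := by
  unfold Ad
  have h : 0 < (d : ℝ) + 6 := by positivity
  nlinarith [sq_nonneg (u - 4 * (d + 6))]

lemma kap_nonneg (y : E d) : 0 ≤ kap y := by
  unfold kap
  have := kap_fac (d := d) (uu y)
  have h : 0 ≤ (d + 6 : ℝ) ^ 2 := by positivity
  exact mul_nonneg (sq_nonneg _) (h.trans this)

lemma uu_zero {y : E d} (hy : (d : ℝ) + 6 ≤ ‖y‖) : uu y = 0 := by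
  unfold uu Ad
  have : 0 < (d : ℝ) + 6 := by positivity
  exact max_eq_right (by nlinarith)

lemma cs_of {f : E d → ℝ} (h : ∀ y, uu y = 0 → f y = 0) : HasCompactSupport f := by
  refine HasCompactSupport.intro (isCompact_closedBall (0 : E d) ((d : ℝ) + 6)) fun y hy => ?_
  refine h y (uu_zero ?_)
  rw [mem_closedBall, dist_zero_right] at hy
  linarith

lemma kap_cs : HasCompactSupport (kap (d := d)) := cs_of fun y h => by simp [kap, h]

lemma kap_supp {y : E d} (h : kap y ≠ 0) : ‖y‖ ≤ (d : ℝ) + 6 := by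
  by_contra hc
  push Not at hc
  exact h (by simp [kap, uu_zero hc.le])

lemma kap_pos : 0 < ∫ y : E d, kap y := by
  refine (integral_pos_iff_support_of_nonneg kap_nonneg
    (kap_cont.integrable_of_hasCompactSupport kap_cs)).2 ?_
  refine (kap_cont.isOpen_support).measure_pos volume ⟨0, ?_⟩
  have u0 : 0 < uu (0 : E d) := by
    unfold uu Ad
    simp only [norm_zero]
    refine lt_max_of_lt_left ?_
    have : 0 < (d : ℝ) + 6 := by positivity
    nlinarith
  have h := kap_fac (d := d) (uu (0 : E d))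
  have h2 : 0 < (d + 6 : ℝ) ^ 2 := by positivity
  have : 0 < kap (0 : E d) := by
    unfold kap
    exact mul_pos (by positivity) (h2.trans_le h)
  exact this.ne'

lemma nsq_der (y : E d) : HasFDerivAt (fun y : E d => Ad d - ‖y‖ ^ 2)
    (-(2 • (innerSL ℝ y : E d →L[ℝ] ℝ))) y := by
  have h := (hasStrictFDerivAt_norm_sq y).hasFDerivAt
  exact h.const_sub _

lemma uu_pow_der (n : ℕ) (y : E d) (j : Fin d) :
    DifferentiableAt ℝ (fun y : E d => uu y ^ (n + 2)) y ∧
    D j (fun y : E d => uu y ^ (n + 2)) y = -(2 * (n + 2)) * (y j * uu y ^ (n + 1)) := by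
  obtain ⟨L, hL⟩ : ∃ L : E d →L[ℝ] ℝ, L = -(2 • (innerSL ℝ y : E d →L[ℝ] ℝ)) := ⟨_, rfl⟩
  have h : HasFDerivAt (fun y : E d => uu y ^ (n + 2))
      ((((n : ℝ) + 2) * uu y ^ (n + 1)) • L) y := by
    rw [hL]
    exact (pos_pow_der n (Ad d - ‖y‖ ^ 2)).comp_hasFDerivAt y (nsq_der y)
  refine ⟨h.differentiableAt, ?_⟩
  unfold D
  rw [h.fderiv, hL]
  simp only [smul_apply, neg_apply, innerSL_apply_apply, smul_eq_mul, nsmul_eq_mul]
  rw [EuclideanSpace.inner_single_right]
  simp
  ring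

lemma ibpK {φ ψ w : E d → ℝ} (j : Fin d) (hφ : ∀ y, DifferentiableAt ℝ φ y)
    (hD : ∀ y, D j φ y = ψ y) (cψ : Continuous ψ) (sφ : HasCompactSupport φ)
    (sψ : HasCompactSupport ψ) (hw : ContDiff ℝ ∞ w) :
    ∫ y, φ y * D j w y = -∫ y, ψ y * w y := by
  have cφ : Continuous φ := continuous_iff_continuousAt.2 fun y => (hφ y).continuousAt
  have e : D j φ = ψ := funext hD
  rw [← e] at cψ sψ ⊢
  refine integral_mul_fderiv_eq_neg_fderiv_mul_of_integrable ?_ ?_ ?_ ?_ ?_
  · exact cint cψ sψ hw.continuous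
  · exact cint cφ sφ (D_sm hw j).continuous
  · exact cint cφ sφ hw.continuous
  · exact fun x _ => hφ x
  · exact fun x _ => sdiff hw x

/-- the kernel annihilates the solutions -/
theorem kap_int {f : E d → ℝ} (hf : ContDiff ℝ ∞ f) (eq : ∀ y, Lap f y = -f y) :
    ∫ y, kap y * f y = 0 := by
  have cu := uu_cont (d := d)
  have cf := hf.continuous
  have j1 : ∀ j : Fin d, ∫ y : E d, uu y ^ 4 * D j (D j f) y =
      -∫ y : E d, (-8 * (y j * uu y ^ 3)) * D j f y := by
    intro j
    refine ibpK j (fun y => (uu_pow_der 2 y j).1) (fun y => ?_) (by fun_prop)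
      (cs_of fun y h => by simp [h]) (cs_of fun y h => by simp [h]) (D_sm hf j)
    rw [(uu_pow_der 2 y j).2]
    norm_num
  have j2 : ∀ j : Fin d, ∫ y : E d, (-8 * (y j * uu y ^ 3)) * D j f y =
      -∫ y : E d, (-8 * uu y ^ 3 + 48 * (y j ^ 2 * uu y ^ 2)) * f y := by
    intro j
    have dj : ∀ y : E d, HasFDerivAt (fun y : E d => y j) (EuclideanSpace.proj j : E d →L[ℝ] ℝ) y :=
      fun y => (EuclideanSpace.proj j : E d →L[ℝ] ℝ).hasFDerivAt
    have dd : ∀ y : E d, DifferentiableAt ℝ (fun y : E d => uu y ^ 3) y := fun y =>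
      (uu_pow_der 1 y j).1
    refine ibpK j (fun y => (((dj y).differentiableAt).mul (dd y)).const_mul _) (fun y => ?_)
      (by fun_prop) (cs_of fun y h => by simp [h]) (cs_of fun y h => by simp [h]) hf
    have h1 := (((dj y).mul (dd y).hasFDerivAt).const_mul (-8 : ℝ)).fderiv
    unfold D
    have e1 : fderiv ℝ (fun y : E d => -8 * (y j * uu y ^ 3)) y =
        (-8 : ℝ) • (y j • fderiv ℝ (fun y : E d => uu y ^ 3) y + uu y ^ 3 •
          (EuclideanSpace.proj j : E d →L[ℝ] ℝ)) := h1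
    rw [e1]
    have e2 : fderiv ℝ (fun y : E d => uu y ^ 3) y (EuclideanSpace.single j 1) =
        -(2 * ((1 : ℕ) + 2)) * (y j * uu y ^ (1 + 1)) := (uu_pow_der 1 y j).2
    simp only [smul_apply, add_apply, smul_eq_mul]
    rw [e2]
    simp
    ring
  have tot : ∀ y : E d, kap y * f y = (uu y ^ 4 * f y) +
      ∑ j, (-8 * uu y ^ 3 + 48 * (y j ^ 2 * uu y ^ 2)) * f y := by
    intro y
    rw [← Finset.sum_mul, Finset.sum_add_distrib, ← Finset.mul_sum, ← Finset.mul_sum,
      ← Finset.sum_mul]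
    have n2 : ∑ j, y j ^ 2 = ‖y‖ ^ 2 := by
      rw [EuclideanSpace.norm_sq_eq]
      simp
    rw [n2, Finset.sum_const, Finset.card_univ, Fintype.card_fin, nsmul_eq_mul]
    have hu : ‖y‖ ^ 2 * uu y ^ 2 = (Ad d - uu y) * uu y ^ 2 := by
      rcases le_total (Ad d - ‖y‖ ^ 2) 0 with h | h
      · have : uu y = 0 := max_eq_right h
        rw [this]; ring
      · have : uu y = Ad d - ‖y‖ ^ 2 := max_eq_left h
        rw [this]; ring
    rw [hu]
    unfold kap
    ring
  simp only [tot]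
  have i0 : Integrable fun y : E d => uu y ^ 4 * f y :=
    cint (by fun_prop) (cs_of fun y h => by simp [h]) cf
  have i1 : ∀ j : Fin d, Integrable fun y : E d =>
      (-8 * uu y ^ 3 + 48 * (y j ^ 2 * uu y ^ 2)) * f y := fun j =>
    cint (by fun_prop) (cs_of fun y h => by simp [h]) cf
  have i2 : ∀ j : Fin d, Integrable fun y : E d => uu y ^ 4 * D j (D j f) y := fun j =>
    cint (by fun_prop) (cs_of fun y h => by simp [h]) (D_sm (D_sm hf j) j).continuous
  rw [integral_add i0 (integrable_finsetSum _ fun j _ => i1 j),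
    integral_finsetSum _ fun j _ => i1 j]
  have e3 : ∀ j : Fin d, ∫ y : E d, (-8 * uu y ^ 3 + 48 * (y j ^ 2 * uu y ^ 2)) * f y =
      ∫ y : E d, uu y ^ 4 * D j (D j f) y := by
    intro j
    rw [j1 j, j2 j, neg_neg]
  simp only [e3]
  rw [← integral_finsetSum _ fun j _ => i2 j,
    ← integral_add i0 (integrable_finsetSum _ fun j _ => i2 j)]
  have : ∀ y : E d, uu y ^ 4 * f y + ∑ j, uu y ^ 4 * D j (D j f) y = 0 := by
    intro y
    rw [← Finset.mul_sum]
    have := eq y
    unfold Lap at this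
    rw [this]; ring
  simp only [this]
  simp

end

end Pool.Agent.K6.H16.QS
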