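import Pool.Agent.K6.H16.QS.D
import Pool.Agent.K6.H16.QS.H
import Pool.Agent.K6.H16.QS.K

/-!
Doubling of stationary waves, part F: the supremum over an imaginary cube.
-/

set_option autoImplicit false
open MeasureTheory Filter Topology Metric
open scoped ENNReal ContDiff

namespace Pool.Agent.K6.H16.QS

open Pool.Agent.Y139.SW

noncomputable section

variable {d : ℕ}

/-- dyadic displacements in one direction -/
def lst : ℕ → ℝ → E d → List (E d)
  | 0, _, _ => []
  | n + 1, R, e => ((R / 2) • e) :: lst n (R / 2) e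

lemma len_append (V W : List (E d)) : len (V ++ W) = len V + len W := by
  simp [len]

lemma len_lst (n : ℕ) : ∀ (R : ℝ) (e : E d), 0 ≤ R → len (lst n R e) ≤ R * ‖e‖ := by
  induction n with
  | zero => intro R e hR; simp only [lst, len, List.map_nil, List.sum_nil]; positivity
  | succ n ih =>
    intro R e hR
    have h := ih (R / 2) e (by linarith)
    have hl : len (lst (n + 1) R e) = ‖(R / 2) • e‖ + len (lst n (R / 2) e) := by
      simp [lst, len]
    rw [hl, norm_smul, Real.norm_eq_abs, abs_of_nonneg (by linarith : 0 ≤ R / 2)]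
    linarith

lemma lst_low {ε : ℝ} (Φ : T d) (W : List (E d)) (e : E d) (n : ℕ) : ∀ (R t : ℝ), |t| ≤ R →
    ∃ t' : ℝ, |t - t'| ≤ R / 2 ^ n ∧ ∀ z, NV ε W Φ (z + im (t' • e)) ≤
      NV ε (lst n R e ++ W) Φ z := by
  induction n with
  | zero =>
    intro R t ht
    refine ⟨0, by simpa using ht, fun z => ?_⟩
    rw [zero_smul]
    have : im (0 : E d) = 0 := by
      funext i; simp [im, io]
    rw [this, add_zero]
    exact le_rfl
  | succ n ih =>
    intro R t ht
    have hs : ∀ t0 : ℝ, (t0 = R / 2 ∨ t0 = -(R / 2)) → |t - t0| ≤ R / 2 →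
        ∃ t' : ℝ, |t - t'| ≤ R / 2 ^ (n + 1) ∧ ∀ z, NV ε W Φ (z + im (t' • e)) ≤
          NV ε (lst (n + 1) R e ++ W) Φ z := by
      intro t0 h0 h1
      obtain ⟨t', h2, h3⟩ := ih (R / 2) (t - t0) h1
      refine ⟨t0 + t', ?_, fun z => ?_⟩
      · have e1 : t - (t0 + t') = t - t0 - t' := by ring
        have e2 : R / 2 ^ (n + 1) = R / 2 / 2 ^ n := by
          rw [pow_succ, div_div]; ring
        rw [e1, e2]
        exact h2
      · rw [add_smul, im_add, ← add_assoc]
        refine (h3 _).trans ?_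
        show _ ≤ max (NV ε (lst n (R / 2) e ++ W) Φ (z + im ((R / 2) • e)))
          (NV ε (lst n (R / 2) e ++ W) Φ (z - im ((R / 2) • e)))
        rcases h0 with rfl | rfl
        · exact le_max_left _ _
        · refine le_trans (le_of_eq ?_) (le_max_right _ _)
          congr 1
          rw [neg_smul, sub_eq_add_neg]
          congr 1
          funext i
          simp [im, io]
    rw [abs_le] at ht
    rcases le_total 0 t with h | h
    · exact hs (R / 2) (Or.inl rfl) (abs_le.2 ⟨by linarith, by linarith⟩)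
    · exact hs (-(R / 2)) (Or.inr rfl) (abs_le.2 ⟨by linarith, by linarith⟩)

lemma lst_up {ε : ℝ} (Φ : T d) (W : List (E d)) (e : E d) (n : ℕ) : ∀ (R : ℝ), 0 ≤ R →
    ∀ z, ∃ t' : ℝ, |t'| ≤ R ∧ NV ε (lst n R e ++ W) Φ z ≤ NV ε W Φ (z + im (t' • e)) := by
  induction n with
  | zero =>
    intro R hR z
    refine ⟨0, by simpa using hR, ?_⟩
    rw [zero_smul]
    have : im (0 : E d) = 0 := by
      funext i; simp [im, io]
    rw [this, add_zero]
    exact le_rfl
  | succ n ih =>
    intro R hR z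
    have hs : ∀ t0 : ℝ, |t0| ≤ R / 2 → ∃ t' : ℝ, |t'| ≤ R ∧
        NV ε (lst n (R / 2) e ++ W) Φ (z + im (t0 • e)) ≤ NV ε W Φ (z + im (t' • e)) := by
      intro t0 h0
      obtain ⟨t', h1, h2⟩ := ih (R / 2) (by linarith) (z + im (t0 • e))
      refine ⟨t0 + t', (abs_add_le _ _).trans (by linarith), ?_⟩
      rw [add_smul, im_add, ← add_assoc]
      exact h2
    have c : NV ε (lst (n + 1) R e ++ W) Φ z = max (NV ε (lst n (R / 2) e ++ W) Φ
      (z + im ((R / 2) • e))) (NV ε (lst n (R / 2) e ++ W) Φ (z - im ((R / 2) • e))) := rfl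
    rw [c]
    rcases max_cases (NV ε (lst n (R / 2) e ++ W) Φ (z + im ((R / 2) • e)))
      (NV ε (lst n (R / 2) e ++ W) Φ (z - im ((R / 2) • e))) with ⟨h, _⟩ | ⟨h, _⟩
    · rw [h]
      exact hs (R / 2) (by rw [abs_of_nonneg (by linarith)])
    · rw [h]
      have : z - im ((R / 2) • e) = z + im ((-(R / 2)) • e) := by
        rw [neg_smul, sub_eq_add_neg]
        congr 1
        funext i
        simp [im, io]
      rw [this]
      exact hs (-(R / 2)) (by rw [abs_neg, abs_of_nonneg (by linarith)])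

/-- dyadic displacements in all coordinate directions of a list -/
def cat (n : ℕ) (R : ℝ) : List (Fin d) → List (E d)
  | [] => []
  | j :: J => lst n R (EuclideanSpace.single j 1) ++ cat n R J

lemma len_cat (n : ℕ) {R : ℝ} (hR : 0 ≤ R) : ∀ J : List (Fin d),
    len (cat n R J) ≤ J.length * R
  | [] => by simp [cat, len]
  | j :: J => by
    have h1 := len_lst n R (EuclideanSpace.single j (1 : ℝ)) hR
    have h2 := len_cat n hR J
    rw [cat, len_append, List.length_cons]
    push_cast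
    have : ‖EuclideanSpace.single j (1 : ℝ)‖ = 1 := by simp
    rw [this] at h1
    linarith

lemma cat_low {ε : ℝ} (Φ : T d) (n : ℕ) {R : ℝ} {s : Fin d → ℝ} (hs : ∀ j, |s j| ≤ R) :
    ∀ J : List (Fin d), ∃ η : E d, ‖η - (J.map fun j => s j • EuclideanSpace.single j
      (1 : ℝ)).sum‖ ≤ J.length * (R / 2 ^ n) ∧ ∀ z, N0 ε Φ (z + im η) ≤ NV ε (cat n R J) Φ z
  | [] => ⟨0, by simp, fun z => by
    have : im (0 : E d) = 0 := by
      funext i; simp [im, io]
    rw [this, add_zero]
    exact le_rfl⟩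
  | j :: J => by
    obtain ⟨η, h1, h2⟩ := cat_low (ε := ε) Φ n hs J
    obtain ⟨t', h3, h4⟩ := lst_low (ε := ε) Φ (cat n R J) (EuclideanSpace.single j (1 : ℝ)) n R
      (s j) (hs j)
    refine ⟨t' • EuclideanSpace.single j (1 : ℝ) + η, ?_, fun z => ?_⟩
    · rw [List.map_cons, List.sum_cons, List.length_cons]
      have e : t' • EuclideanSpace.single j (1 : ℝ) + η - (s j • EuclideanSpace.single j (1 : ℝ) +
          (J.map fun j => s j • EuclideanSpace.single j (1 : ℝ)).sum) =
          (t' - s j) • EuclideanSpace.single j (1 : ℝ) +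
          (η - (J.map fun j => s j • EuclideanSpace.single j (1 : ℝ)).sum) := by
        rw [sub_smul]; abel
      rw [e]
      refine (norm_add_le _ _).trans ?_
      have : ‖(t' - s j) • EuclideanSpace.single j (1 : ℝ)‖ = |s j - t'| := by
        rw [norm_smul, Real.norm_eq_abs, abs_sub_comm]
        simp
      rw [this]
      push_cast
      linarith
    · rw [im_add, ← add_assoc]
      exact (h2 _).trans (h4 z)

lemma cat_up {ε : ℝ} (Φ : T d) (n : ℕ) {R : ℝ} (hR : 0 ≤ R) : ∀ (J : List (Fin d)) (z),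
    ∃ η : E d, (∀ i, |η i| ≤ J.count i * R) ∧ NV ε (cat n R J) Φ z ≤ N0 ε Φ (z + im η)
  | [], z => ⟨0, by simp, by
    have : im (0 : E d) = 0 := by
      funext i; simp [im, io]
    rw [this, add_zero]
    exact le_rfl⟩
  | j :: J, z => by
    obtain ⟨t', h3, h4⟩ := lst_up (ε := ε) Φ (cat n R J) (EuclideanSpace.single j (1 : ℝ)) n R
      hR z
    obtain ⟨η, h1, h2⟩ := cat_up (ε := ε) Φ n hR J (z + im (t' • EuclideanSpace.single j (1 : ℝ)))
    refine ⟨t' • EuclideanSpace.single j (1 : ℝ) + η, fun i => ?_, ?_⟩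
    · have e : (t' • EuclideanSpace.single j (1 : ℝ) + η) i =
          t' * (if i = j then 1 else 0) + η i := by
        simp [Pi.single_apply]
      rw [e]
      refine (abs_add_le _ _).trans ?_
      rw [List.count_cons]
      push_cast
      have h5 := h1 i
      by_cases hij : i = j
      · subst hij
        simp
        linarith
      · have hji : ¬ (j == i) = true := by
          simpa using fun h => hij h.symm
        simp only [hij, if_false, mul_zero, abs_zero, zero_add, hji]
        simpa using h5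
    · rw [im_add, ← add_assoc]
      exact h4.trans h2

/-- the cube -/
def Kc (R : ℝ) : Set (E d) := {η | ∀ i, |η i| ≤ R}

lemma Kc_compact {R : ℝ} : IsCompact (Kc (d := d) R) := by
  have cl : IsClosed (Kc (d := d) R) := by
    have : Kc (d := d) R = ⋂ i, {η : E d | |η i| ≤ R} := by
      ext η; simp [Kc]
    rw [this]
    exact isClosed_iInter fun i => isClosed_le (by fun_prop) continuous_const
  refine (isCompact_closedBall (0 : E d) (d * R)).of_isClosed_subset cl fun η hη => ?_
  rw [mem_closedBall, dist_zero_right]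
  have h1 : η = ∑ i, η i • EuclideanSpace.single i (1 : ℝ) := by
    ext j
    simp [Pi.single_apply]
  rw [h1]
  refine (norm_sum_le _ _).trans ?_
  have : ∀ i : Fin d, ‖η i • EuclideanSpace.single i (1 : ℝ)‖ ≤ R := by
    intro i
    rw [norm_smul, Real.norm_eq_abs]
    simpa using hη i
  refine (Finset.sum_le_sum fun i _ => this i).trans ?_
  simp

lemma Kc_zero {R : ℝ} (hR : 0 ≤ R) : (0 : E d) ∈ Kc R := fun i => by simpa using hR

/-- the supremum over the cube -/
def Mx (ε R : ℝ) (Φ : T d) : ℝ := sSup ((fun η : E d => N0 ε Φ (im η)) '' Kc R)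

lemma N0_cont {ε : ℝ} (hε : 0 < ε) (Φ : T d) : Continuous fun η : E d => N0 ε Φ (im η) :=
  (NV_cont hε Φ []).comp im_cont

lemma le_Mx {ε R : ℝ} (hε : 0 < ε) (Φ : T d) {η : E d} (h : η ∈ Kc R) :
    N0 ε Φ (im η) ≤ Mx ε R Φ :=
  le_csSup (Kc_compact.bddAbove_image (N0_cont hε Φ).continuousOn) ⟨η, h, rfl⟩

/-- the signed sums -/
def Vn (d n : ℕ) (R : ℝ) : List (E d) := cat n R (List.finRange d)

lemma len_Vn (n : ℕ) {R : ℝ} (hR : 0 ≤ R) : len (Vn d n R) ≤ d * R := by
  have := len_cat n hR (List.finRange d)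
  rwa [List.length_finRange] at this

lemma Mx_lim {ε R : ℝ} (hε : 0 < ε) (hR : 0 ≤ R) (Φ : T d) :
    Tendsto (fun n => NV ε (Vn d n R) Φ 0) atTop (𝓝 (Mx ε R Φ)) := by
  obtain ⟨η, hη, e⟩ := Kc_compact.exists_sSup_image_eq ⟨0, Kc_zero hR⟩
    (N0_cont hε Φ).continuousOn
  choose η' h1 h2 using fun n => cat_low (ε := ε) Φ n (s := fun j => η j) hη (List.finRange d)
  have es : ((List.finRange d).map fun j => η j • EuclideanSpace.single j (1 : ℝ)).sum = η := by
    rw [← List.ofFn_eq_map, List.sum_ofFn]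
    ext j
    simp [Pi.single_apply]
  have lim : Tendsto η' atTop (𝓝 η) := by
    rw [tendsto_iff_norm_sub_tendsto_zero]
    have b : Tendsto (fun n : ℕ => (d : ℝ) * (R / 2 ^ n)) atTop (𝓝 0) := by
      have := ((tendsto_pow_atTop_nhds_zero_of_lt_one (r := (1 / 2 : ℝ)) (by norm_num)
        (by norm_num)).const_mul R).const_mul (d : ℝ)
      simp only [mul_zero] at this
      refine this.congr fun n => ?_
      rw [one_div, inv_pow, div_eq_mul_inv]
    refine squeeze_zero (fun n => norm_nonneg _) (fun n => ?_) b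
    have := h1 n
    rwa [es, List.length_finRange] at this
  have low : Tendsto (fun n => N0 ε Φ (im (η' n))) atTop (𝓝 (Mx ε R Φ)) := by
    have := ((N0_cont hε Φ).tendsto η).comp lim
    unfold Mx
    rw [e]
    exact this
  refine tendsto_of_tendsto_of_tendsto_of_le_of_le low tendsto_const_nhds (fun n => ?_) fun n => ?_
  · have := h2 n 0
    rwa [zero_add] at this
  · obtain ⟨ξ, h3, h4⟩ := cat_up (ε := ε) Φ n hR (List.finRange d) 0
    rw [zero_add] at h4
    refine h4.trans (le_Mx hε Φ fun i => ?_)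
    have := h3 i
    rwa [List.count_eq_one_of_mem (List.nodup_finRange d) (List.mem_finRange i), Nat.cast_one,
      one_mul] at this

lemma Mx_meas {ε R : ℝ} (hε : 0 < ε) (hR : 0 ≤ R) : Measurable (Mx (d := d) ε R) :=
  measurable_of_tendsto_metrizable (fun n => NV_meas 0 (Vn d n R))
    (tendsto_pi_nhds.2 fun Φ => Mx_lim hε hR Φ)

variable {Q : Measure (T d)} {σ : ℝ}

lemma Law.dom2 (H : Law Q σ) {ε : ℝ} (hε : 0 < ε) {ρ : ℝ} (hρ : 0 ≤ ρ) :
    ∀ᵐ Φ ∂Q, ∀ V : List (E d), len V ≤ ρ → |NV ε V Φ 0| ≤ dom ε ρ Φ := by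
  filter_upwards [H.ae hρ] with Φ h V hV
  have b0 : 0 ≤ Br ρ Φ := ENNReal.toReal_nonneg
  have s0 := Real.sqrt_pos.2 hε
  have h1 := NV_lb hε Φ 0 V
  have h2 := (NV_ub hε Φ 0 V fun z' hz' => h z' (hz'.trans (by rw [norm_zero]; linarith))).trans
    (log_bd hε b0)
  have h3 : Real.log (Br ρ Φ + √ε) ≤ Br ρ Φ + √ε := by
    have := Real.log_le_sub_one_of_pos (by positivity : 0 < Br ρ Φ + √ε)
    linarith
  unfold dom
  rw [abs_le]
  constructor
  · have := neg_abs_le (1 / 2 * Real.log ε)
    linarith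
  · have := abs_nonneg (1 / 2 * Real.log ε)
    linarith

/-- the expected logarithm of the supremum over the imaginary cube -/
theorem Law.cube (H : Law Q σ) {ε : ℝ} (hε : 0 < ε) {R : ℝ} (hR : 0 ≤ R) :
    Integrable (Mx (d := d) ε R) Q ∧
      ∫ Φ, Mx ε R Φ ∂Q ≤ ∫ Φ, N0 ε Φ 0 ∂Q + d ^ 2 * R := by
  have := H.prob
  have dR : 0 ≤ d * R := by positivity
  have ae2 := H.dom2 hε dR
  have i1 := H.idom (ε := ε) dR
  have bd : ∀ n, ∀ᵐ Φ ∂Q, ‖NV ε (Vn d n R) Φ 0‖ ≤ dom ε (d * R) Φ := fun n => by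
    filter_upwards [ae2] with Φ h
    exact h _ (len_Vn n hR)
  have lim := ae_of_all Q (Mx_lim (ε := ε) (R := R) hε hR)
  have iM : Integrable (Mx (d := d) ε R) Q := by
    refine Integrable.mono' i1 (Mx_meas hε hR).aestronglyMeasurable ?_
    filter_upwards [ae2] with Φ h
    exact le_of_tendsto (Mx_lim hε hR Φ).norm (Eventually.of_forall fun n => h _ (len_Vn n hR))
  refine ⟨iM, ?_⟩
  have t := tendsto_integral_of_dominated_convergence (dom ε (d * R))
    (fun n => (NV_meas 0 (Vn d n R)).aestronglyMeasurable) i1 bd lim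
  refine le_of_tendsto t (Eventually.of_forall fun n => ?_)
  refine (H.max hε (Vn d n R)).trans ?_
  have := len_Vn (d := d) n hR
  have : (d : ℝ) * len (Vn d n R) ≤ d * (d * R) :=
    mul_le_mul_of_nonneg_left this (Nat.cast_nonneg d)
  nlinarith

end

end Pool.Agent.K6.H16.QS
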