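import Pool.Agent.K6.H16.QS.B

/-!
Doubling of stationary waves, part G: the gradient estimate in the imaginary directions, and the
bound on the real ball by the imaginary one.
-/

set_option autoImplicit false
open MeasureTheory Filter Topology Metric
open scoped ENNReal Nat ContDiff

namespace Pool.Agent.K6.H16.QS

open Pool.Agent.Y139.SW

noncomputable section

/-- second derivative test -/
lemma sdt {A A' : ℝ → ℝ} {a : ℝ} (h1 : ∀ t, HasDerivAt A (A' t) t) (h2 : HasDerivAt A' a 0)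
    (mx : IsLocalMax A 0) : a ≤ 0 := by
  by_contra hc
  push Not at hc
  have z : A' 0 = 0 := mx.hasDerivAt_eq_zero (h1 0)
  have pos : ∀ᶠ t in 𝓝[>] (0 : ℝ), 0 < A' t := by
    have t1 := h2.tendsto_slope.mono_left (nhdsWithin_mono (0 : ℝ)
      (fun x (hx : 0 < x) => ne_of_gt hx : Set.Ioi (0 : ℝ) ⊆ {0}ᶜ))
    filter_upwards [t1.eventually (lt_mem_nhds hc), self_mem_nhdsWithin] with t ht h0
    rw [slope_def_field, z, sub_zero, sub_zero] at ht
    exact (div_pos_iff_of_pos_right h0).1 ht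
  have le : ∀ᶠ t in 𝓝[>] (0 : ℝ), A t ≤ A 0 := mx.filter_mono nhdsWithin_le_nhds
  obtain ⟨δ, δ0, hδ⟩ := mem_nhdsGT_iff_exists_Ioo_subset.1 pos
  have ev : ∀ᶠ t in 𝓝[>] (0 : ℝ), t < δ :=
    (eventually_lt_nhds δ0).filter_mono nhdsWithin_le_nhds
  obtain ⟨t, ⟨h3, h4⟩, h5⟩ := ((le.and ev).and self_mem_nhdsWithin).exists
  have t0 : (0 : ℝ) < t := h5
  obtain ⟨ξ, hξ, e⟩ := exists_hasDerivAt_eq_slope A A' t0
    (continuous_iff_continuousAt.2 fun x => (h1 x).continuousAt).continuousOn fun x _ => h1 x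
  have : 0 < A' ξ := hδ ⟨hξ.1, hξ.2.trans h4⟩
  rw [e, sub_zero, div_pos_iff_of_pos_right t0] at this
  linarith

variable {d : ℕ}

/-- imaginary displacement -/
def im (v : E d) : Fin d → ℂ := Complex.I • io v

lemma norm_io (v : E d) : ‖io v‖ ≤ ‖v‖ := by
  rw [pi_norm_le_iff_of_nonneg (norm_nonneg _)]
  intro i
  have := PiLp.norm_apply_le v i
  simpa [io] using this

lemma norm_im (v : E d) : ‖im v‖ ≤ ‖v‖ := by
  unfold im
  rw [norm_smul, Complex.norm_I, one_mul]
  exact norm_io v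

lemma im_add (v w : E d) : im (v + w) = im v + im w := by
  unfold im
  rw [io_add, smul_add]

lemma im_smul (t : ℝ) (v : E d) : im (t • v) = (t : ℂ) • im v := by
  unfold im
  rw [io_smul, smul_comm]

lemma im_cont : Continuous (im (d := d)) := by
  have : Continuous fun v : E d => Complex.I • io v :=
    (io_cont (d := d)).const_smul Complex.I
  exact this

lemma line_im {Φ : List (Fin d) → (Fin d → ℂ) → ℂ} (H : Ent Φ) (β : List (Fin d)) (j : Fin d)
    (x : E d) (t : ℝ) : HasDerivAt (fun t : ℝ => Φ β (im (x + t • EuclideanSpace.single j 1)))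
      (Complex.I * Φ (j :: β) (im (x + t • EuclideanSpace.single j 1))) t := by
  have h := (H.der β (im x) (im (EuclideanSpace.single j 1)) (t : ℂ)).comp_ofReal
  have e : ∀ t : ℝ, im (x + t • EuclideanSpace.single j (1 : ℝ)) =
      im x + (t : ℂ) • im (EuclideanSpace.single j 1) := fun t => by rw [im_add, im_smul]
  simp only [e]
  refine h.congr_deriv ?_
  rw [Finset.sum_eq_single j]
  · congr 1
    simp [im, io]
  · intro l _ hl
    have : im (EuclideanSpace.single j (1 : ℝ)) l = 0 := by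
      simp [im, io, hl]
    rw [this, zero_mul]
  · intro hj
    exact absurd (Finset.mem_univ j) hj

open scoped RealInnerProductSpace

lemma I_I (x : ℂ) : Complex.I * (Complex.I * x) = -x := by
  rw [← mul_assoc, Complex.I_mul_I, neg_one_mul]

lemma inI (x : ℂ) : ⟪Complex.I * x, Complex.I * x⟫ = ‖x‖ ^ 2 := by
  rw [real_inner_self_eq_norm_sq, norm_mul, Complex.norm_I, one_mul]

/-- the second derivative of a squared norm -/
lemma nsq {Φ : List (Fin d) → (Fin d → ℂ) → ℂ} (H : Ent Φ) (β : List (Fin d)) (j : Fin d)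
    (x : E d) :
    (∀ t, HasDerivAt (fun t : ℝ => ‖Φ β (im (x + t • EuclideanSpace.single j 1))‖ ^ 2)
      (2 * ⟪Φ β (im (x + t • EuclideanSpace.single j 1)),
        Complex.I * Φ (j :: β) (im (x + t • EuclideanSpace.single j 1))⟫) t) ∧
    HasDerivAt (fun t : ℝ => 2 * ⟪Φ β (im (x + t • EuclideanSpace.single j 1)),
        Complex.I * Φ (j :: β) (im (x + t • EuclideanSpace.single j 1))⟫)
      (2 * (‖Φ (j :: β) (im x)‖ ^ 2 - ⟪Φ β (im x), Φ (j :: j :: β) (im x)⟫)) 0 := by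
  constructor
  · intro t
    exact (line_im H β j x t).norm_sq
  · have h1 := line_im H β j x 0
    have h2 := (line_im H (j :: β) j x 0).const_mul Complex.I
    have h3 := (h1.inner ℝ h2).const_mul 2
    refine h3.congr_deriv ?_
    simp only [zero_smul, add_zero]
    rw [I_I, inI, inner_neg_right]
    ring

/-- the gradient estimate -/
lemma grad {Φ : List (Fin d) → (Fin d → ℂ) → ℂ} (H : Ent Φ) (α : List (Fin d)) (c : E d)
    {δ B : ℝ} (hδ : 0 < δ) (hB : ∀ η : E d, ‖η - c‖ ≤ δ → ‖Φ α (im η)‖ ≤ B) (l : Fin d) :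
    ‖Φ (l :: α) (im c)‖ ≤ (13 + 2 * d) / δ * B := by
  have B0 : 0 ≤ B := (norm_nonneg _).trans (hB c (by simpa using hδ.le))
  obtain ⟨lam, hlam⟩ : ∃ lam : ℝ, lam = (13 + 2 * d) * δ ^ 2 := ⟨_, rfl⟩
  have lam0 : 0 < lam := by rw [hlam]; positivity
  obtain ⟨Θ, hΘ⟩ : ∃ Θ : E d → ℝ, Θ = fun η => (δ ^ 2 - ‖η - c‖ ^ 2) ^ 2 *
    (∑ l, ‖Φ (l :: α) (im η)‖ ^ 2) + lam * ‖Φ α (im η)‖ ^ 2 := ⟨_, rfl⟩
  have cβ : ∀ β, Continuous fun η : E d => Φ β (im η) := fun β => (H.cont β).comp im_cont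
  have cΘ : Continuous Θ := by
    rw [hΘ]
    refine Continuous.add (Continuous.mul (by fun_prop) ?_) (continuous_const.mul
      ((cβ α).norm.pow 2))
    exact continuous_finsetSum _ fun l _ => (cβ _).norm.pow 2
  obtain ⟨x, hx, mx⟩ := (isCompact_closedBall c δ).exists_isMaxOn
    ⟨c, mem_closedBall_self hδ.le⟩ cΘ.continuousOn
  have main : Θ x ≤ lam * B ^ 2 := by
    have hx' : ‖x - c‖ ≤ δ := by rwa [mem_closedBall, dist_eq_norm] at hx
    have nB : ‖Φ α (im x)‖ ^ 2 ≤ B ^ 2 := pow_le_pow_left₀ (norm_nonneg _) (hB x hx') 2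
    rcases hx'.eq_or_lt with h | h
    · rw [hΘ]
      simp only
      rw [h]
      nlinarith
    · obtain ⟨X, hX⟩ : ∃ X, X = δ ^ 2 - ‖x - c‖ ^ 2 := ⟨_, rfl⟩
      obtain ⟨y, hy⟩ : ∃ y : Fin d → ℝ, y = fun j => (x - c) j := ⟨_, rfl⟩
      have Y : ∑ j, y j ^ 2 = ‖x - c‖ ^ 2 := by
        rw [EuclideanSpace.norm_sq_eq, hy]
        simp
      have X0 : 0 ≤ X := by
        rw [hX]
        nlinarith [norm_nonneg (x - c)]
      have X1 : X ≤ δ ^ 2 := by
        rw [hX]
        nlinarith [sq_nonneg ‖x - c‖]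
      have Y1 : ∑ j, y j ^ 2 ≤ δ ^ 2 := by
        rw [Y]
        nlinarith [norm_nonneg (x - c)]
      obtain ⟨S, hS⟩ : ∃ S, S = ∑ l, ‖Φ (l :: α) (im x)‖ ^ 2 := ⟨_, rfl⟩
      have S0 : 0 ≤ S := by
        rw [hS]; exact Finset.sum_nonneg fun l _ => sq_nonneg _
      have step : ∀ j, (8 * y j ^ 2 - 4 * X) * S - 8 * X * y j *
          (∑ l, 2 * ⟪Φ (l :: α) (im x), Complex.I * Φ (j :: l :: α) (im x)⟫) +
          X ^ 2 * (∑ l, 2 * (‖Φ (j :: l :: α) (im x)‖ ^ 2 -
            ⟪Φ (l :: α) (im x), Φ (j :: j :: l :: α) (im x)⟫)) +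
          lam * (2 * (‖Φ (j :: α) (im x)‖ ^ 2 - ⟪Φ α (im x), Φ (j :: j :: α) (im x)⟫)) ≤ 0 := by
        intro j
        obtain ⟨χ, hχ⟩ : ∃ χ : ℝ → ℝ, χ = fun t => X - 2 * t * y j - t ^ 2 := ⟨_, rfl⟩
        have eχ : ∀ t : ℝ, δ ^ 2 - ‖x + t • EuclideanSpace.single j (1 : ℝ) - c‖ ^ 2 = χ t := by
          intro t
          rw [hχ, hX]
          have e1 : x + t • EuclideanSpace.single j (1 : ℝ) - c =
              (x - c) + t • EuclideanSpace.single j (1 : ℝ) := by abel
          rw [e1, norm_add_sq_real, norm_smul, inner_smul_right, EuclideanSpace.inner_single_right]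
          simp [hy]
          ring
        have dχ : ∀ t, HasDerivAt χ (-2 * y j - 2 * t) t := by
          intro t
          rw [hχ]
          have h1 : HasDerivAt (fun t : ℝ => 2 * t * y j) (2 * 1 * y j) t :=
            ((hasDerivAt_id t).const_mul 2).mul_const (y j)
          have h2 : HasDerivAt (fun t : ℝ => t ^ 2) (2 * t) t := by
            simpa using hasDerivAt_pow 2 t
          refine ((h1.const_sub X).sub h2).congr_deriv ?_
          ring
        have dχ2 : HasDerivAt (fun t : ℝ => -2 * y j - 2 * t) (-2) 0 := by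
          have h1 := ((hasDerivAt_id (0 : ℝ)).const_mul 2).const_sub (-2 * y j)
          simpa using h1
        obtain ⟨s, hs⟩ : ∃ s : ℝ → ℝ, s = fun t => ∑ l,
          ‖Φ (l :: α) (im (x + t • EuclideanSpace.single j 1))‖ ^ 2 := ⟨_, rfl⟩
        obtain ⟨s1, hs1⟩ : ∃ s1 : ℝ → ℝ, s1 = fun t => ∑ l,
          2 * ⟪Φ (l :: α) (im (x + t • EuclideanSpace.single j 1)),
            Complex.I * Φ (j :: l :: α) (im (x + t • EuclideanSpace.single j 1))⟫ := ⟨_, rfl⟩
        have ds : ∀ t, HasDerivAt s (s1 t) t := by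
          intro t
          rw [hs, hs1]
          exact HasDerivAt.fun_sum fun l _ => (nsq H (l :: α) j x).1 t
        have ds1 : HasDerivAt s1 (∑ l, 2 * (‖Φ (j :: l :: α) (im x)‖ ^ 2 -
            ⟪Φ (l :: α) (im x), Φ (j :: j :: l :: α) (im x)⟫)) 0 := by
          rw [hs1]
          exact HasDerivAt.fun_sum fun l _ => (nsq H (l :: α) j x).2
        obtain ⟨n, hn⟩ : ∃ n : ℝ → ℝ, n = fun t =>
          ‖Φ α (im (x + t • EuclideanSpace.single j 1))‖ ^ 2 := ⟨_, rfl⟩
        obtain ⟨n1, hn1⟩ : ∃ n1 : ℝ → ℝ, n1 = fun t =>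
          2 * ⟪Φ α (im (x + t • EuclideanSpace.single j 1)),
            Complex.I * Φ (j :: α) (im (x + t • EuclideanSpace.single j 1))⟫ := ⟨_, rfl⟩
        have dn : ∀ t, HasDerivAt n (n1 t) t := by
          intro t
          rw [hn, hn1]
          exact (nsq H α j x).1 t
        have dn1 : HasDerivAt n1 (2 * (‖Φ (j :: α) (im x)‖ ^ 2 -
            ⟪Φ α (im x), Φ (j :: j :: α) (im x)⟫)) 0 := by
          rw [hn1]
          exact (nsq H α j x).2
        obtain ⟨A, hA⟩ : ∃ A : ℝ → ℝ, A = fun t => χ t * χ t * s t + lam * n t := ⟨_, rfl⟩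
        obtain ⟨A', hA'⟩ : ∃ A' : ℝ → ℝ, A' = fun t =>
          ((-2 * y j - 2 * t) * χ t + χ t * (-2 * y j - 2 * t)) * s t + χ t * χ t * s1 t +
            lam * n1 t := ⟨_, rfl⟩
        have dA : ∀ t, HasDerivAt A (A' t) t := by
          intro t
          rw [hA, hA']
          exact (((dχ t).mul (dχ t)).mul (ds t)).add ((dn t).const_mul lam)
        have dA' := ((((dχ2.mul (dχ 0)).add ((dχ 0).mul dχ2)).mul (ds 0)).add
          (((dχ 0).mul (dχ 0)).mul ds1)).add (dn1.const_mul lam)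
        have lm : IsLocalMax A 0 := by
          have e2 : ∀ t : ℝ, A t = Θ (x + t • EuclideanSpace.single j 1) := by
            intro t
            rw [hA, hΘ, hs, hn]
            simp only
            rw [eχ]
            ring
          have ev : ∀ᶠ t : ℝ in 𝓝 0, x + t • EuclideanSpace.single j (1 : ℝ) ∈ ball c δ := by
            have ct : Continuous fun t : ℝ => x + t • EuclideanSpace.single j (1 : ℝ) := by
              fun_prop
            refine ct.continuousAt.eventually (isOpen_ball.mem_nhds ?_)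
            simpa [dist_eq_norm] using h
          filter_upwards [ev] with t ht
          rw [e2, e2, zero_smul, add_zero]
          exact mx (ball_subset_closedBall ht)
        have fin := sdt (A' := A') dA (dA'.congr_of_eventuallyEq (Eventually.of_forall fun t => by
          rw [hA']
          rfl)) lm
        have c0 : χ 0 = X := by rw [hχ]; simp
        have s0 : s 0 = S := by rw [hs, hS]; simp
        have s10 : s1 0 = ∑ l, 2 * ⟪Φ (l :: α) (im x), Complex.I * Φ (j :: l :: α) (im x)⟫ := by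
          rw [hs1]; simp
        simp only [Pi.mul_apply, Pi.add_apply, c0, s0, s10] at fin
        refine le_trans (le_of_eq ?_) fin
        ring
      have low : ∀ j, (8 * y j ^ 2 - 4 * X) * S - 32 * y j ^ 2 * S - 2 * X ^ 2 *
            (∑ l, ⟪Φ (l :: α) (im x), Φ (j :: j :: l :: α) (im x)⟫) +
          lam * (2 * (‖Φ (j :: α) (im x)‖ ^ 2 - ⟪Φ α (im x), Φ (j :: j :: α) (im x)⟫)) ≤ 0 := by
        intro j
        refine le_trans ?_ (step j)
        have cs : ∀ l, 0 ≤ 32 * y j ^ 2 * ‖Φ (l :: α) (im x)‖ ^ 2 - 8 * X * y j *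
            (2 * ⟪Φ (l :: α) (im x), Complex.I * Φ (j :: l :: α) (im x)⟫) +
            X ^ 2 * (2 * ‖Φ (j :: l :: α) (im x)‖ ^ 2) := by
          intro l
          have h1 := abs_real_inner_le_norm (Φ (l :: α) (im x))
            (Complex.I * Φ (j :: l :: α) (im x))
          rw [norm_mul, Complex.norm_I, one_mul] at h1
          obtain ⟨a, ha⟩ : ∃ a, a = ‖Φ (l :: α) (im x)‖ := ⟨_, rfl⟩
          obtain ⟨b, hb⟩ : ∃ b, b = ‖Φ (j :: l :: α) (im x)‖ := ⟨_, rfl⟩
          obtain ⟨q, hq⟩ : ∃ q, q = ⟪Φ (l :: α) (im x), Complex.I * Φ (j :: l :: α) (im x)⟫ :=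
            ⟨_, rfl⟩
          rw [← ha, ← hb, ← hq] at h1
          rw [← ha, ← hb, ← hq]
          have h2 : X * y j * q ≤ X * |y j| * (a * b) := by
            have h3 : y j * q ≤ |y j| * (a * b) := by
              calc y j * q ≤ |y j * q| := le_abs_self _
                _ = |y j| * |q| := abs_mul _ _
                _ ≤ _ := mul_le_mul_of_nonneg_left h1 (abs_nonneg _)
            nlinarith
          have h4 : y j ^ 2 = |y j| ^ 2 := (sq_abs _).symm
          rw [h4]
          nlinarith [sq_nonneg (X * b - 4 * |y j| * a)]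
        have cs2 := Finset.sum_nonneg fun l (_ : l ∈ Finset.univ) => cs l
        rw [Finset.sum_add_distrib, Finset.sum_sub_distrib, ← Finset.mul_sum, ← Finset.mul_sum,
          ← Finset.mul_sum, ← hS] at cs2
        have e1 : ∑ l, 2 * (‖Φ (j :: l :: α) (im x)‖ ^ 2 -
            ⟪Φ (l :: α) (im x), Φ (j :: j :: l :: α) (im x)⟫) =
            (∑ l, 2 * ‖Φ (j :: l :: α) (im x)‖ ^ 2) -
            2 * ∑ l, ⟪Φ (l :: α) (im x), Φ (j :: j :: l :: α) (im x)⟫ := by
          rw [Finset.mul_sum, ← Finset.sum_sub_distrib]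
          exact Finset.sum_congr rfl fun l _ => by ring
        simp only [← Finset.mul_sum] at cs2 e1 ⊢
        rw [e1]
        linarith
      have tot := Finset.sum_nonpos fun j (_ : j ∈ Finset.univ) => low j
      have hel : ∀ β, ∑ j, ⟪Φ β (im x), Φ (j :: j :: β) (im x)⟫ = -‖Φ β (im x)‖ ^ 2 := by
        intro β
        rw [← inner_sum, H.helm, inner_neg_right, real_inner_self_eq_norm_sq]
      have e3 : ∑ j, ((8 * y j ^ 2 - 4 * X) * S - 32 * y j ^ 2 * S - 2 * X ^ 2 *
            (∑ l, ⟪Φ (l :: α) (im x), Φ (j :: j :: l :: α) (im x)⟫) +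
          lam * (2 * (‖Φ (j :: α) (im x)‖ ^ 2 - ⟪Φ α (im x), Φ (j :: j :: α) (im x)⟫))) =
          -24 * (∑ j, y j ^ 2) * S - 4 * d * X * S + 2 * X ^ 2 * S +
            2 * lam * (S + ‖Φ α (im x)‖ ^ 2) := by
        rw [Finset.sum_add_distrib, Finset.sum_sub_distrib]
        have f1 : ∑ j, ((8 * y j ^ 2 - 4 * X) * S - 32 * y j ^ 2 * S) =
            -24 * (∑ j, y j ^ 2) * S - 4 * d * X * S := by
          have : ∀ j, (8 * y j ^ 2 - 4 * X) * S - 32 * y j ^ 2 * S =
              -24 * S * y j ^ 2 - 4 * X * S := fun j => by ring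
          simp only [this]
          rw [Finset.sum_sub_distrib, ← Finset.mul_sum, Finset.sum_const, Finset.card_univ,
            Fintype.card_fin, nsmul_eq_mul]
          ring
        have f2 : ∑ j, 2 * X ^ 2 * (∑ l, ⟪Φ (l :: α) (im x), Φ (j :: j :: l :: α) (im x)⟫) =
            -(2 * X ^ 2 * S) := by
          rw [← Finset.mul_sum, Finset.sum_comm]
          simp only [hel]
          rw [Finset.sum_neg_distrib, ← hS]
          ring
        have f3 : ∑ j, lam * (2 * (‖Φ (j :: α) (im x)‖ ^ 2 -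
            ⟪Φ α (im x), Φ (j :: j :: α) (im x)⟫)) = 2 * lam * (S + ‖Φ α (im x)‖ ^ 2) := by
          rw [← Finset.mul_sum, ← Finset.mul_sum, Finset.sum_sub_distrib, hel, ← hS]
          ring
        rw [f1, f2, f3]
        ring
      rw [e3] at tot
      have g1 : (∑ j, y j ^ 2) * S ≤ δ ^ 2 * S := mul_le_mul_of_nonneg_right Y1 S0
      have g2 : d * (X * S) ≤ d * (δ ^ 2 * S) :=
        mul_le_mul_of_nonneg_left (mul_le_mul_of_nonneg_right X1 S0) (Nat.cast_nonneg d)
      have g3 : 0 ≤ X ^ 2 * S := by positivity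
      have g4 : 2 * lam * S = 26 * (δ ^ 2 * S) + 4 * (d * (δ ^ 2 * S)) := by
        rw [hlam]; ring
      have g5 : 0 ≤ lam * ‖Φ α (im x)‖ ^ 2 := by positivity
      have g6 : 0 ≤ δ ^ 2 * S := by positivity
      have z1 : δ ^ 2 * S = 0 := by nlinarith
      have z2 : S = 0 := by
        rcases mul_eq_zero.1 z1 with h | h
        · exact absurd h (by positivity)
        · exact h
      have z3 : lam * ‖Φ α (im x)‖ ^ 2 ≤ 0 := by
        rw [z2] at tot
        nlinarith
      rw [hΘ]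
      simp only
      rw [← hS, z2]
      have : 0 ≤ lam * B ^ 2 := by positivity
      linarith
  have hc : Θ c ≤ lam * B ^ 2 := (mx (mem_closedBall_self hδ.le)).trans main
  rw [hΘ] at hc
  simp only [sub_self, norm_zero] at hc
  have h1 : ‖Φ (l :: α) (im c)‖ ^ 2 ≤ ∑ l, ‖Φ (l :: α) (im c)‖ ^ 2 :=
    Finset.single_le_sum (f := fun l => ‖Φ (l :: α) (im c)‖ ^ 2) (fun l _ => sq_nonneg _)
      (Finset.mem_univ l)
  have h2 : 0 ≤ lam * ‖Φ α (im c)‖ ^ 2 := by positivity
  have h3 : (δ ^ 2) ^ 2 * ‖Φ (l :: α) (im c)‖ ^ 2 ≤ lam * B ^ 2 := by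
    have : (δ ^ 2) ^ 2 * ‖Φ (l :: α) (im c)‖ ^ 2 ≤
        (δ ^ 2) ^ 2 * ∑ l, ‖Φ (l :: α) (im c)‖ ^ 2 :=
      mul_le_mul_of_nonneg_left h1 (by positivity)
    have e : (δ ^ 2 - (0 : ℝ) ^ 2) ^ 2 = (δ ^ 2) ^ 2 := by ring
    rw [e] at hc
    linarith
  have k1 : (1 : ℝ) ≤ 13 + 2 * d := by
    have : (0 : ℝ) ≤ d := Nat.cast_nonneg d
    linarith
  refine (pow_le_pow_iff_left₀ (norm_nonneg _) (by positivity) two_ne_zero).1 ?_
  have h4 : ‖Φ (l :: α) (im c)‖ ^ 2 ≤ (13 + 2 * d) * B ^ 2 / δ ^ 2 := by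
    rw [le_div_iff₀ (by positivity)]
    rw [hlam] at h3
    have : δ ^ 2 * (‖Φ (l :: α) (im c)‖ ^ 2 * δ ^ 2) ≤ δ ^ 2 * ((13 + 2 * d) * B ^ 2) := by
      linarith
    exact le_of_mul_le_mul_left this (by positivity)
  refine h4.trans ?_
  have e : ((13 + 2 * (d : ℝ)) / δ * B) ^ 2 = (13 + 2 * d) * ((13 + 2 * d) * B ^ 2 / δ ^ 2) := by
    field_simp
  rw [e]
  have : 0 ≤ (13 + 2 * (d : ℝ)) * B ^ 2 / δ ^ 2 := by positivity
  nlinarith

end

end Pool.Agent.K6.H16.QS
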