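import Pool.Agent.K6.H16.QS.F

/-!
Doubling of stationary waves, part M: doubling and quasi-symmetry on the canonical space.
-/

set_option autoImplicit false
open MeasureTheory Filter Topology Metric
open scoped ENNReal ContDiff

namespace Pool.Agent.K6.H16.QS

open Pool.Agent.Y139.SW

noncomputable section

variable {d : ℕ}

/-- the real field -/
def Fr (Φ : T d) (x : E d) : ℝ := (Φ.1 [] (io x)).re

lemma Fr_eq (Φ : T d) (x : E d) : Φ.1 [] (io x) = (Fr Φ x : ℂ) := by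
  obtain ⟨f, _, _, hf⟩ := Φ.2.fn
  unfold Fr
  rw [hf]
  simp

lemma Fr_cont (Φ : T d) : Continuous (Fr Φ) :=
  Complex.continuous_re.comp ((Φ.2.cont []).comp io_cont)

lemma Fr_meas (x : E d) : Measurable fun Φ : T d => Fr Φ x :=
  Complex.measurable_re.comp (ev_me [] (io x))

lemma Fr_norm (Φ : T d) (x : E d) : ‖Φ.1 [] (io x)‖ = |Fr Φ x| := by
  rw [Fr_eq, Complex.norm_real, Real.norm_eq_abs]

lemma Fr_int (Φ : T d) : ∫ y : E d, kap y * Fr Φ y = 0 := by
  obtain ⟨f, h1, h2, hf⟩ := Φ.2.fn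
  have e : ∀ y, Fr Φ y = f y := fun y => by
    unfold Fr
    rw [hf]
    simp [Dw]
  simp only [e]
  exact kap_int h1 h2

lemma Fr_sh (Φ : T d) (x : E d) : Fr (sh x Φ) 0 = Fr Φ x := by
  unfold Fr
  show (Φ.1 [] (io 0 + io x)).re = _
  rw [← io_add, zero_add]

lemma exp_N0 {ε : ℝ} (hε : 0 < ε) (Φ : T d) (z : Fin d → ℂ) :
    Real.exp (N0 ε Φ z) = √(‖Φ.1 [] z‖ ^ 2 + ε) := by
  have p : 0 < ‖Φ.1 [] z‖ ^ 2 + ε := by positivity
  unfold N0
  rw [Real.sqrt_eq_rpow, Real.rpow_def_of_pos p]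
  congr 1
  ring

lemma norm_le_exp {ε : ℝ} (hε : 0 < ε) (Φ : T d) (z : Fin d → ℂ) :
    ‖Φ.1 [] z‖ ≤ Real.exp (N0 ε Φ z) := by
  rw [exp_N0 hε]
  refine Real.le_sqrt_of_sq_le ?_
  linarith

lemma exp_le {ε : ℝ} (hε : 0 < ε) (Φ : T d) (z : Fin d → ℂ) :
    Real.exp (N0 ε Φ z) ≤ ‖Φ.1 [] z‖ + √ε := by
  rw [exp_N0 hε]
  refine Real.sqrt_le_iff.2 ⟨by positivity, ?_⟩
  have := Real.sq_sqrt hε.le
  nlinarith [mul_nonneg (norm_nonneg (Φ.1 [] z)) (Real.sqrt_nonneg ε)]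

/-- the real ball is controlled by the imaginary cube -/
lemma Fr_le {ε R : ℝ} (hε : 0 < ε) (hR : 0 < R) (Φ : T d) {w : E d}
    (hw : 6 * d * (13 + 2 * d) * ‖w‖ ≤ R) : |Fr Φ w| ≤ 2 * Real.exp (Mx ε R Φ) := by
  rw [← Fr_norm]
  refine real_le Φ.2 hR (fun η hη => ?_) w hw
  refine (norm_le_exp hε Φ _).trans (Real.exp_le_exp.2 (le_Mx hε Φ fun i => ?_))
  have := PiLp.norm_apply_le η i
  rw [Real.norm_eq_abs] at this
  exact this.trans hη

variable {Q : Measure (T d)} {σ : ℝ}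

lemma st0 (H : Law Q σ) (ε : ℝ) (y : E d) : ∫ Φ, N0 ε Φ (io y) ∂Q = ∫ Φ, N0 ε Φ 0 ∂Q := by
  have := H.st (ε := ε) [] 0 y
  rw [zero_add] at this
  exact this

/-- lower bound for the expectation at a point -/
lemma low_pt (H : Law Q σ) {ε : ℝ} (hε : 0 < ε) {R : ℝ} (hR : 0 < R) {y : E d}
    (hy : 6 * d * (13 + 2 * d) * ‖y‖ ≤ R) :
    Real.exp (-(d ^ 2 * R)) - ∫ Φ, √ε / √(Fr Φ 0 ^ 2 + ε) ∂Q ≤
      ∫ Φ, |Fr Φ y| * Real.exp (-Mx ε R Φ) ∂Q := by
  have := H.prob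
  obtain ⟨iM, hM⟩ := H.cube hε hR.le
  have iN : Integrable (fun Φ : T d => N0 ε Φ (io y)) Q := H.iNV hε [] (io y)
  have mN : Measurable fun Φ : T d => N0 ε Φ (io y) := NV_meas (io y) []
  have mM := Mx_meas (d := d) hε hR.le
  have s0 := Real.sqrt_pos.2 hε
  have m1 : Measurable fun Φ : T d => |Fr Φ y| * Real.exp (-Mx ε R Φ) :=
    (Fr_meas y).abs.mul mM.neg.exp
  have m2 : Measurable fun Φ : T d => √ε / √(Fr Φ 0 ^ 2 + ε) :=
    (((Fr_meas 0).pow_const 2).add_const _).sqrt.const_div _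
  have b1 : ∀ Φ : T d, |Fr Φ y| * Real.exp (-Mx ε R Φ) ≤ 2 := by
    intro Φ
    have h := Fr_le hε hR Φ hy
    calc |Fr Φ y| * Real.exp (-Mx ε R Φ) ≤ 2 * Real.exp (Mx ε R Φ) * Real.exp (-Mx ε R Φ) :=
          mul_le_mul_of_nonneg_right h (Real.exp_pos _).le
      _ = 2 := by rw [mul_assoc, ← Real.exp_add]; simp
  have i1 : Integrable (fun Φ : T d => |Fr Φ y| * Real.exp (-Mx ε R Φ)) Q := by
    refine Integrable.mono' (integrable_const 2) m1.aestronglyMeasurable (ae_of_all _ fun Φ => ?_)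
    rw [Real.norm_eq_abs, abs_of_nonneg (by positivity)]
    exact b1 Φ
  have b2 : ∀ Φ : T d, √ε / √(Fr Φ 0 ^ 2 + ε) ≤ 1 := by
    intro Φ
    rw [div_le_one (Real.sqrt_pos.2 (by positivity))]
    exact Real.sqrt_le_sqrt (by nlinarith [sq_nonneg (Fr Φ 0)])
  have i2 : Integrable (fun Φ : T d => √ε / √(Fr Φ 0 ^ 2 + ε)) Q := by
    refine Integrable.mono' (integrable_const 1) m2.aestronglyMeasurable (ae_of_all _ fun Φ => ?_)
    rw [Real.norm_eq_abs, abs_of_nonneg (by positivity)]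
    exact b2 Φ
  obtain ⟨a, ha⟩ : ∃ a, a = ∫ Φ, (N0 ε Φ (io y) - Mx ε R Φ) ∂Q := ⟨_, rfl⟩
  have iX : Integrable (fun Φ : T d => N0 ε Φ (io y) - Mx ε R Φ) Q := iN.sub iM
  have ea : -(d ^ 2 * R) ≤ a := by
    rw [ha, integral_sub iN iM, st0 H]
    linarith
  have p1 : ∀ Φ : T d, Real.exp a * (1 + (N0 ε Φ (io y) - Mx ε R Φ) - a) -
      √ε / √(Fr Φ 0 ^ 2 + ε) ≤ |Fr Φ y| * Real.exp (-Mx ε R Φ) := by
    intro Φ
    have h1 : Real.exp a * (1 + (N0 ε Φ (io y) - Mx ε R Φ) - a) ≤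
        Real.exp (N0 ε Φ (io y) - Mx ε R Φ) := by
      have h2 := Real.add_one_le_exp (N0 ε Φ (io y) - Mx ε R Φ - a)
      have h3 : Real.exp (N0 ε Φ (io y) - Mx ε R Φ) =
          Real.exp a * Real.exp (N0 ε Φ (io y) - Mx ε R Φ - a) := by
        rw [← Real.exp_add]; congr 1; ring
      rw [h3]
      exact mul_le_mul_of_nonneg_left (by linarith) (Real.exp_pos a).le
    have h4 : Real.exp (N0 ε Φ (io y) - Mx ε R Φ) ≤
        |Fr Φ y| * Real.exp (-Mx ε R Φ) + √ε * Real.exp (-Mx ε R Φ) := by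
      rw [sub_eq_add_neg, Real.exp_add, ← add_mul]
      refine mul_le_mul_of_nonneg_right ?_ (Real.exp_pos _).le
      have := exp_le hε Φ (io y)
      rwa [Fr_norm] at this
    have h5 : √ε * Real.exp (-Mx ε R Φ) ≤ √ε / √(Fr Φ 0 ^ 2 + ε) := by
      rw [div_eq_mul_inv]
      refine mul_le_mul_of_nonneg_left ?_ s0.le
      rw [Real.exp_neg]
      have i0 : im (0 : E d) = 0 := by
        funext i; simp [im, io]
      have i00 : io (0 : E d) = 0 := by
        funext i; simp [io]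
      have h6 := le_Mx hε Φ (Kc_zero (d := d) hR.le)
      rw [i0] at h6
      have h7 := exp_N0 hε Φ 0
      have h8 : ‖Φ.1 [] 0‖ ^ 2 = Fr Φ 0 ^ 2 := by
        have := Fr_norm Φ 0
        rw [i00] at this
        rw [this, sq_abs]
      rw [h8] at h7
      rw [← h7]
      exact inv_anti₀ (Real.exp_pos _) (Real.exp_le_exp.2 h6)
    linarith
  have i3 : Integrable (fun Φ : T d => Real.exp a * (1 + (N0 ε Φ (io y) - Mx ε R Φ) - a)) Q :=
    (((integrable_const _).add iX).sub (integrable_const _)).const_mul _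
  have h9 := integral_mono (i3.sub i2) i1 p1
  refine le_trans ?_ h9
  have e1 : ∫ Φ, (Real.exp a * (1 + (N0 ε Φ (io y) - Mx ε R Φ) - a) -
      √ε / √(Fr Φ 0 ^ 2 + ε)) ∂Q = Real.exp a - ∫ Φ, √ε / √(Fr Φ 0 ^ 2 + ε) ∂Q := by
    have i4 : Integrable (fun Φ : T d => 1 + (N0 ε Φ (io y) - Mx ε R Φ)) Q :=
      (integrable_const _).add iX
    rw [integral_sub i3 i2, integral_const_mul, integral_sub i4 (integrable_const _),
      integral_add (integrable_const _) iX, ← ha]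
    simp
  have e2 : ∫ Φ, ((fun Φ : T d => Real.exp a * (1 + (N0 ε Φ (io y) - Mx ε R Φ) - a)) -
      fun Φ : T d => √ε / √(Fr Φ 0 ^ 2 + ε)) Φ ∂Q = Real.exp a -
      ∫ Φ, √ε / √(Fr Φ 0 ^ 2 + ε) ∂Q := e1
  rw [e2]
  have := Real.exp_le_exp.2 ea
  linarith

/-- the probability of negative values -/
def ng (Q : Measure (T d)) : ℝ := Q.real {Φ | Fr Φ 0 < 0}

lemma ng_pt (H : Law Q σ) (y : E d) : Q.real {Φ | Fr Φ y < 0} = ng Q := by
  unfold ng
  have m : MeasurableSet {Φ : T d | Fr Φ 0 < 0} := measurableSet_lt (Fr_meas 0) measurable_const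
  have h := (H.mp y).measureReal_preimage m.nullMeasurableSet
  rw [← h]
  congr 1
  ext Φ
  show Fr Φ y < 0 ↔ Fr (sh y Φ) 0 < 0
  rw [Fr_sh]

/-- quasi-symmetry with a parameter -/
lemma qs_eps (H : Law Q σ) {ε : ℝ} (hε : 0 < ε) {R : ℝ} (hR : 0 < R)
    (hRd : 6 * d * (13 + 2 * d) * ((d : ℝ) + 6) ≤ R) :
    Real.exp (-(d ^ 2 * R)) - ∫ Φ, √ε / √(Fr Φ 0 ^ 2 + ε) ∂Q ≤ 4 * ng Q := by
  have := H.prob
  obtain ⟨c, hc⟩ : ∃ c, c = Real.exp (-(d ^ 2 * R)) - ∫ Φ, √ε / √(Fr Φ 0 ^ 2 + ε) ∂Q := ⟨_, rfl⟩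
  rw [← hc]
  have mM := Mx_meas (d := d) hε hR.le
  have supp : ∀ y : E d, kap y ≠ 0 → 6 * d * (13 + 2 * d) * ‖y‖ ≤ R := by
    intro y hy
    refine le_trans ?_ hRd
    have := kap_supp hy
    gcongr
  have jF : Measurable fun p : T d × E d => Fr p.1 p.2 := by
    have := measurable_uncurry_of_continuous_of_measurable (u := fun (y : E d) (Φ : T d) => Fr Φ y)
      (fun Φ => Fr_cont Φ) fun y => Fr_meas y
    exact this.comp measurable_swap
  have mk : Measurable fun p : T d × E d => kap p.2 :=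
    kap_cont.measurable.comp measurable_snd
  have ik : Integrable (fun y : E d => kap y) := kap_cont.integrable_of_hasCompactSupport kap_cs
  -- the two integrands
  obtain ⟨h1, hh1⟩ : ∃ h1 : T d → E d → ℝ, h1 = fun Φ y =>
    kap y * (|Fr Φ y| * Real.exp (-Mx ε R Φ)) := ⟨_, rfl⟩
  obtain ⟨h2, hh2⟩ : ∃ h2 : T d → E d → ℝ, h2 = fun Φ y =>
    kap y * ({Φ : T d | Fr Φ y < 0}.indicator (fun _ => (4 : ℝ)) Φ) := ⟨_, rfl⟩
  have m1 : Measurable (Function.uncurry h1) := by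
    rw [hh1]
    exact mk.mul (jF.abs.mul (mM.comp measurable_fst).neg.exp)
  have m2 : Measurable (Function.uncurry h2) := by
    rw [hh2]
    refine mk.mul ?_
    have e : (fun p : T d × E d => {Φ : T d | Fr Φ p.2 < 0}.indicator (fun _ => (4 : ℝ)) p.1) =
        {p : T d × E d | Fr p.1 p.2 < 0}.indicator fun _ => 4 := by
      funext p
      simp only [Set.indicator, Set.mem_ofPred_eq]
    exact e ▸ measurable_const.indicator (measurableSet_lt jF measurable_const)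
  have b1 : ∀ (Φ : T d) (y : E d), |Fr Φ y| * Real.exp (-Mx ε R Φ) ≤ 2 ∨ kap y = 0 := by
    intro Φ y
    by_cases hy : kap y = 0
    · exact Or.inr hy
    · left
      have h := Fr_le hε hR Φ (supp y hy)
      calc |Fr Φ y| * Real.exp (-Mx ε R Φ) ≤ 2 * Real.exp (Mx ε R Φ) * Real.exp (-Mx ε R Φ) :=
            mul_le_mul_of_nonneg_right h (Real.exp_pos _).le
        _ = 2 := by rw [mul_assoc, ← Real.exp_add]; simp
  have nb1 : ∀ (Φ : T d) (y : E d), ‖h1 Φ y‖ ≤ 2 * kap y := by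
    intro Φ y
    have k0 := kap_nonneg y
    rw [hh1]
    simp only
    rw [Real.norm_eq_abs, abs_of_nonneg (by positivity)]
    rcases b1 Φ y with h | h
    · nlinarith
    · rw [h]; simp
  have nb2 : ∀ (Φ : T d) (y : E d), ‖h2 Φ y‖ ≤ 4 * kap y := by
    intro Φ y
    have k0 := kap_nonneg y
    rw [hh2]
    simp only
    rw [norm_mul, Real.norm_eq_abs, abs_of_nonneg k0, mul_comm]
    refine mul_le_mul_of_nonneg_right ?_ k0
    refine (norm_indicator_le_norm_self _ _).trans ?_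
    norm_num
  have i1 : Integrable (Function.uncurry h1) (Q.prod volume) := by
    have : Integrable (fun p : T d × E d => 2 * kap p.2) (Q.prod volume) :=
      (ik.const_mul 2).comp_snd Q
    exact Integrable.mono' this m1.aestronglyMeasurable (ae_of_all _ fun p => nb1 p.1 p.2)
  have i2 : Integrable (Function.uncurry h2) (Q.prod volume) := by
    have : Integrable (fun p : T d × E d => 4 * kap p.2) (Q.prod volume) :=
      (ik.const_mul 4).comp_snd Q
    exact Integrable.mono' this m2.aestronglyMeasurable (ae_of_all _ fun p => nb2 p.1 p.2)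
  have s1 := integral_integral_swap i1
  have s2 := integral_integral_swap i2
  -- lower bound
  have lo : (∫ y : E d, kap y) * c ≤ ∫ y, ∫ Φ, h1 Φ y ∂Q := by
    rw [← integral_mul_const]
    refine integral_mono (ik.mul_const _) i1.integral_prod_right fun y => ?_
    show kap y * c ≤ ∫ Φ, h1 Φ y ∂Q
    rw [hh1]
    simp only
    rw [integral_const_mul]
    by_cases hy : kap y = 0
    · rw [hy]; simp
    · refine mul_le_mul_of_nonneg_left ?_ (kap_nonneg y)
      rw [hc]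
      exact low_pt H hε hR (supp y hy)
  -- pointwise comparison
  have cmp : ∀ Φ, ∫ y, h1 Φ y ≤ ∫ y, h2 Φ y := by
    intro Φ
    have cF := Fr_cont Φ
    have ia : Integrable fun y : E d => kap y * |Fr Φ y| := cint kap_cont kap_cs cF.abs
    have ib : Integrable fun y : E d => kap y * Fr Φ y := cint kap_cont kap_cs cF
    have i3 : Integrable fun y : E d => h1 Φ y := by
      rw [hh1]
      have : (fun y : E d => kap y * (|Fr Φ y| * Real.exp (-Mx ε R Φ))) =
          fun y => kap y * |Fr Φ y| * Real.exp (-Mx ε R Φ) := by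
        funext y; ring
      rw [this]
      exact ia.mul_const _
    have i4 : Integrable fun y : E d => h2 Φ y := by
      refine Integrable.mono' (ik.const_mul 4) ?_ (ae_of_all _ fun y => nb2 Φ y)
      exact (m2.comp (measurable_const.prodMk measurable_id :
        Measurable fun y : E d => (Φ, y))).aestronglyMeasurable
    have e1 : ∫ y, h1 Φ y = ∫ y : E d, (kap y * |Fr Φ y| - kap y * Fr Φ y) *
        Real.exp (-Mx ε R Φ) := by
      rw [integral_mul_const, integral_sub ia ib, Fr_int, sub_zero, ← integral_mul_const]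
      rw [hh1]
      exact integral_congr_ae (ae_of_all _ fun y => by simp only; ring)
    rw [e1]
    refine integral_mono ((ia.sub ib).mul_const _) i4 fun y => ?_
    show (kap y * |Fr Φ y| - kap y * Fr Φ y) * Real.exp (-Mx ε R Φ) ≤ h2 Φ y
    rw [hh2]
    simp only [Set.indicator, Set.mem_ofPred_eq]
    have k0 := kap_nonneg y
    by_cases hn : Fr Φ y < 0
    · rw [if_pos hn, abs_of_neg hn]
      rcases b1 Φ y with h | h
      · rw [abs_of_neg hn] at h
        nlinarith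
      · rw [h]; simp
    · rw [if_neg hn, abs_of_nonneg (not_lt.1 hn)]
      simp
  have up : ∫ Φ, (∫ y, h1 Φ y) ∂Q ≤ ∫ Φ, (∫ y, h2 Φ y) ∂Q :=
    integral_mono i1.integral_prod_left i2.integral_prod_left cmp
  have e2 : ∫ y, ∫ Φ, h2 Φ y ∂Q = (∫ y : E d, kap y) * (4 * ng Q) := by
    rw [← integral_mul_const]
    refine integral_congr_ae (ae_of_all _ fun y => ?_)
    show ∫ Φ, h2 Φ y ∂Q = kap y * (4 * ng Q)
    rw [hh2]
    simp only
    rw [integral_const_mul, integral_indicator (measurableSet_lt (Fr_meas y) measurable_const),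
      setIntegral_const, ng_pt H y, smul_eq_mul]
    ring
  have fin : (∫ y : E d, kap y) * c ≤ (∫ y : E d, kap y) * (4 * ng Q) := by
    rw [← e2, ← s2]
    exact lo.trans (s1 ▸ up)
  exact le_of_mul_le_mul_left fin kap_pos

/-- quasi-symmetry -/
theorem qs (H : Law Q σ) (nz : ∀ᵐ Φ ∂Q, Fr Φ 0 ≠ 0) {R : ℝ} (hR : 0 < R)
    (hRd : 6 * d * (13 + 2 * d) * ((d : ℝ) + 6) ≤ R) :
    Real.exp (-(d ^ 2 * R)) ≤ 4 * ng Q := by
  have := H.prob
  have t : Tendsto (fun n : ℕ => ∫ Φ, √(1 / ((n : ℝ) + 1)) /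
      √(Fr Φ 0 ^ 2 + 1 / ((n : ℝ) + 1)) ∂Q) atTop (𝓝 (∫ Φ : T d, (0 : ℝ) ∂Q)) := by
    refine tendsto_integral_of_dominated_convergence (fun _ => 1) (fun n => ?_)
      (integrable_const _) (fun n => ae_of_all _ fun Φ => ?_) ?_
    · exact ((((Fr_meas 0).pow_const 2).add_const _).sqrt.const_div _).aestronglyMeasurable
    · have hε : (0 : ℝ) < 1 / ((n : ℝ) + 1) := by positivity
      rw [Real.norm_eq_abs, abs_of_nonneg (by positivity),
        div_le_one (Real.sqrt_pos.2 (by positivity))]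
      exact Real.sqrt_le_sqrt (by nlinarith [sq_nonneg (Fr Φ 0)])
    · filter_upwards [nz] with Φ hΦ
      have t0 := tendsto_one_div_add_atTop_nhds_zero_nat (𝕜 := ℝ)
      have t1 := (Real.continuous_sqrt.tendsto 0).comp t0
      have t2 := (Real.continuous_sqrt.tendsto (Fr Φ 0 ^ 2 + 0)).comp
        (t0.const_add (Fr Φ 0 ^ 2))
      have p : √(Fr Φ 0 ^ 2 + 0) ≠ 0 := by
        rw [add_zero]
        exact (Real.sqrt_pos.2 (by positivity)).ne'
      have t3 := t1.div t2 p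
      rw [Real.sqrt_zero, zero_div] at t3
      exact t3
  simp only [integral_zero] at t
  have t4 := t.const_sub (Real.exp (-(d ^ 2 * R)))
  rw [sub_zero] at t4
  exact le_of_tendsto t4 (Eventually.of_forall fun n => qs_eps H (by positivity) hR hRd)

/-- the supremum over a real ball -/
def Sf (ρ : ℝ) (f : E d → ℝ) : ℝ := sSup ((fun x => |f x|) '' closedBall 0 ρ)

lemma Sf_att {f : E d → ℝ} (cf : Continuous f) {ρ : ℝ} (hρ : 0 ≤ ρ) :
    ∃ x, ‖x‖ ≤ ρ ∧ Sf ρ f = |f x| := by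
  obtain ⟨x, hx, e⟩ := (isCompact_closedBall (0 : E d) ρ).exists_sSup_image_eq
    ⟨0, mem_closedBall_self hρ⟩ (f := fun x => |f x|) cf.abs.continuousOn
  exact ⟨x, by simpa using hx, e⟩

lemma Sf_ge {f : E d → ℝ} (cf : Continuous f) {ρ : ℝ} (hρ : 0 ≤ ρ) : |f 0| ≤ Sf ρ f :=
  le_csSup ((isCompact_closedBall (0 : E d) ρ).bddAbove_image cf.abs.continuousOn)
    ⟨0, mem_closedBall_self hρ, rfl⟩

/-- doubling -/
theorem dbl (H : Law Q σ) (nz : ∀ᵐ Φ ∂Q, Fr Φ 0 ≠ 0) {ρ : ℝ} (hρ : 0 ≤ ρ) {R : ℝ} (hR : 0 < R)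
    (hRρ : 6 * d * (13 + 2 * d) * ρ ≤ R) : ∃ Z : T d → ℝ≥0∞, Measurable Z ∧
      (∀ᵐ Φ ∂Q, ENNReal.ofReal (Real.log (Sf ρ (Fr Φ) / |Fr Φ 0|)) ≤ Z Φ) ∧
      ∫⁻ Φ, Z Φ ∂Q ≤ ENNReal.ofReal (Real.log 2 + d ^ 2 * R) := by
  have := H.prob
  obtain ⟨ε, hε⟩ : ∃ ε : ℕ → ℝ, ε = fun n : ℕ => 1 / ((n : ℝ) + 1) := ⟨_, rfl⟩
  have ε0 : ∀ n, 0 < ε n := fun n => by rw [hε]; positivity
  obtain ⟨Y, hY⟩ : ∃ Y : ℕ → T d → ℝ, Y = fun n Φ =>
    Real.log 2 + (Mx (ε n) R Φ - N0 (ε n) Φ 0) := ⟨_, rfl⟩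
  have i0 : im (0 : E d) = 0 := by
    funext i; simp [im, io]
  have i00 : io (0 : E d) = 0 := by
    funext i; simp [io]
  have l2 : 0 ≤ Real.log 2 := Real.log_nonneg (by norm_num)
  have Y0 : ∀ n Φ, 0 ≤ Y n Φ := by
    intro n Φ
    have h := le_Mx (ε0 n) Φ (Kc_zero (d := d) hR.le)
    rw [i0] at h
    rw [hY]
    simp only
    linarith
  have mN : ∀ n, Measurable fun Φ : T d => N0 (ε n) Φ 0 := fun n => NV_meas 0 []
  have mY : ∀ n, Measurable (Y n) := by
    intro n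
    rw [hY]
    exact ((Mx_meas (ε0 n) hR.le).sub (mN n)).const_add _
  have iN : ∀ n, Integrable (fun Φ : T d => N0 (ε n) Φ 0) Q := fun n => H.iNV (ε0 n) [] 0
  have iY : ∀ n, Integrable (Y n) Q := by
    intro n
    rw [hY]
    exact (integrable_const _).add ((H.cube (ε0 n) hR.le).1.sub (iN n))
  refine ⟨fun Φ => liminf (fun n => ENNReal.ofReal (Y n Φ)) atTop,
    Measurable.liminf fun n => (mY n).ennreal_ofReal, ?_, ?_⟩
  · filter_upwards [nz] with Φ hΦ
    have cF := Fr_cont Φ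
    obtain ⟨x, hx, e⟩ := Sf_att cF hρ
    have p0 : 0 < |Fr Φ 0| := abs_pos.2 hΦ
    have p1 : 0 < Sf ρ (Fr Φ) := p0.trans_le (Sf_ge cF hρ)
    have b : ∀ n, Real.log (Sf ρ (Fr Φ)) - N0 (ε n) Φ 0 ≤ Y n Φ := by
      intro n
      have h := Fr_le (ε0 n) hR Φ (w := x) (le_trans (by gcongr) hRρ)
      rw [← e] at h
      have h2 := Real.log_le_log p1 h
      rw [Real.log_mul (by norm_num) (Real.exp_pos _).ne', Real.log_exp] at h2
      rw [hY]
      simp only
      linarith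
    have t : Tendsto (fun n => Real.log (Sf ρ (Fr Φ)) - N0 (ε n) Φ 0) atTop
        (𝓝 (Real.log (Sf ρ (Fr Φ) / |Fr Φ 0|))) := by
      rw [Real.log_div p1.ne' p0.ne']
      refine Tendsto.const_sub _ ?_
      have n0 : ‖Φ.1 [] 0‖ = |Fr Φ 0| := by
        rw [← i00, Fr_norm]
      have e3 : Real.log |Fr Φ 0| = 1 / 2 * Real.log (|Fr Φ 0| ^ 2 + 0) := by
        rw [add_zero, Real.log_pow]
        push_cast
        ring
      have t0 : Tendsto ε atTop (𝓝 0) := by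
        rw [hε]
        exact tendsto_one_div_add_atTop_nhds_zero_nat (𝕜 := ℝ)
      have e4 : ∀ n, N0 (ε n) Φ 0 = 1 / 2 * Real.log (|Fr Φ 0| ^ 2 + ε n) := by
        intro n
        unfold N0
        rw [n0]
      simp only [e4]
      rw [e3]
      refine Tendsto.const_mul _ (Tendsto.log (t0.const_add _) ?_)
      positivity
    have t2 := (ENNReal.continuous_ofReal.tendsto _).comp t
    rw [← t2.liminf_eq]
    exact liminf_le_liminf (Eventually.of_forall fun n => ENNReal.ofReal_le_ofReal (b n))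
  · refine (lintegral_liminf_le fun n => (mY n).ennreal_ofReal).trans ?_
    refine liminf_le_of_le (by isBoundedDefault) fun b hb => ?_
    obtain ⟨n, hn⟩ := hb.exists
    refine hn.trans ?_
    rw [← ofReal_integral_eq_lintegral_ofReal (iY n) (ae_of_all _ (Y0 n))]
    refine ENNReal.ofReal_le_ofReal ?_
    obtain ⟨iM, hM⟩ := H.cube (ε0 n) hR.le
    rw [hY]
    simp only
    have iD : Integrable (fun Φ : T d => Mx (ε n) R Φ - N0 (ε n) Φ 0) Q := iM.sub (iN n)
    rw [integral_add (integrable_const _) iD, integral_sub iM (iN n)]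
    simp only [integral_const, probReal_univ, smul_eq_mul, one_mul]
    linarith

end

end Pool.Agent.K6.H16.QS
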