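import Pool.Agent.K6.H16.QS.M

/-!
Doubling of stationary waves, part N: general stationary waves.
-/

set_option autoImplicit false
open MeasureTheory Filter Topology Metric
open scoped ENNReal ContDiff

namespace Pool.Agent.K6.H16.QS

open Pool.Agent.Y139.SW

noncomputable section

variable {d : ℕ}

/-- the first constant -/
def C1 (d : ℕ) (ρ : ℝ) : ℝ := Real.log 2 + d ^ 2 * (6 * d * (13 + 2 * d) * ρ + 1)

/-- the second constant -/
def C2 (d : ℕ) : ℝ := Real.exp (-(d ^ 2 * (6 * d * (13 + 2 * d) * ((d : ℝ) + 6) + 1))) / 4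

variable {S : Type*} [MeasurableSpace S] {P : Measure S} {τ : E d → S → S}

theorem wave_main [IsProbabilityMeasure P] (hτ : ∀ x, MeasurePreserving (τ x) P P)
    {G : S → E d → ℝ} (W : Wave P τ G) (nz : ∀ᵐ s ∂P, G s 0 ≠ 0) :
    (∀ ρ : ℝ, 0 ≤ ρ → ∃ Z : S → ℝ≥0∞, Measurable Z ∧
      (∀ᵐ s ∂P, ENNReal.ofReal (Real.log (Sf ρ (G s) / |G s 0|)) ≤ Z s) ∧
      ∫⁻ s, Z s ∂P ≤ ENNReal.ofReal (C1 d ρ)) ∧ C2 d ≤ P.real {s | G s 0 < 0} := by
  obtain ⟨Ψ, mΨ, hG, mp, σ, σ0, bd⟩ := canonT hτ W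
  have H : Law (P.map Ψ) σ :=
    ⟨Measure.isProbabilityMeasure_map mΨ.aemeasurable, mp, σ0, bd⟩
  have hF : ∀ᵐ s ∂P, ∀ x, Fr (Ψ s) x = G s x := by
    filter_upwards [hG] with s hs x
    unfold Fr
    rw [hs]
    simp
  have nz' : ∀ᵐ Φ ∂(P.map Ψ), Fr Φ 0 ≠ 0 := by
    have m : MeasurableSet {Φ : T d | Fr Φ 0 ≠ 0} := ((Fr_meas 0) (measurableSet_singleton 0)).compl
    rw [ae_map_iff mΨ.aemeasurable m]
    filter_upwards [hF, nz] with s h1 h2
    show Fr (Ψ s) 0 ≠ 0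
    rw [h1]
    exact h2
  constructor
  · intro ρ hρ
    obtain ⟨Z, mZ, h1, h2⟩ := dbl H nz' hρ (R := 6 * d * (13 + 2 * d) * ρ + 1) (by positivity)
      (by linarith)
    refine ⟨fun s => Z (Ψ s), mZ.comp mΨ, ?_, ?_⟩
    · filter_upwards [hF, ae_of_ae_map mΨ.aemeasurable h1] with s h3 h4
      have : Fr (Ψ s) = G s := funext h3
      rw [this] at h4
      exact h4
    · rw [lintegral_map mZ mΨ] at h2
      exact h2
  · have h := qs H nz' (R := 6 * d * (13 + 2 * d) * ((d : ℝ) + 6) + 1) (by positivity)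
      (by linarith)
    have e : ng (P.map Ψ) = P.real {s | G s 0 < 0} := by
      unfold ng
      have m : MeasurableSet {Φ : T d | Fr Φ 0 < 0} :=
        measurableSet_lt (Fr_meas 0) measurable_const
      rw [map_measureReal_apply mΨ m]
      refine measureReal_congr ?_
      filter_upwards [hF] with s hs
      refine propext ?_
      show Fr (Ψ s) 0 < 0 ↔ G s 0 < 0
      rw [hs]
    rw [← e]
    unfold C2
    linarith

/-- the event that the wave does not vanish identically -/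
def Ev (G : S → E d → ℝ) : Set S := {s | ∃ y, G s y ≠ 0}

lemma Ev_eq {G : S → E d → ℝ} (h : SF τ G) :
    Ev G = ⋃ n : ℕ, {s | G s (TopologicalSpace.denseSeq (E d) n) = 0}ᶜ := by
  ext s
  simp only [Ev, Set.mem_ofPred_eq, Set.mem_iUnion, Set.mem_compl_iff]
  constructor
  · rintro ⟨y, hy⟩
    by_contra hc
    push Not at hc
    have := (TopologicalSpace.denseRange_denseSeq (E d)).equalizer (h.smooth s).continuous
      (continuous_const (y := (0 : ℝ))) (funext fun n => hc n)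
    exact hy (congrFun this y)
  · rintro ⟨n, hn⟩
    exact ⟨_, hn⟩

lemma Ev_meas {G : S → E d → ℝ} (h : SF τ G) : MeasurableSet (Ev G) := by
  rw [Ev_eq h]
  exact MeasurableSet.iUnion fun n => ((h.meas _) (measurableSet_singleton 0)).compl

lemma Ev_inv {G : S → E d → ℝ} (h : SF τ G) (x : E d) : τ x ⁻¹' Ev G = Ev G := by
  ext s
  simp only [Ev, Set.mem_preimage, Set.mem_ofPred_eq, h.cov]
  constructor
  · rintro ⟨y, hy⟩
    exact ⟨_, hy⟩
  · rintro ⟨y, hy⟩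
    exact ⟨y - x, by rw [sub_add_cancel]; exact hy⟩

theorem wave_cond [IsProbabilityMeasure P] (hτ : ∀ x, MeasurePreserving (τ x) P P)
    {G : S → E d → ℝ} (W : Wave P τ G) :
    (∀ᵐ s ∂P, s ∈ Ev G → G s 0 ≠ 0) ∧
    (∀ ρ : ℝ, 0 ≤ ρ → ∃ Z : S → ℝ≥0∞, Measurable Z ∧
      (∀ᵐ s ∂P, s ∈ Ev G → ENNReal.ofReal (Real.log (Sf ρ (G s) / |G s 0|)) ≤ Z s) ∧
      ∫⁻ s in Ev G, Z s ∂P ≤ ENNReal.ofReal (C1 d ρ) * P (Ev G)) ∧
    ENNReal.ofReal (C2 d) * P (Ev G) ≤ P {s | G s 0 < 0} := by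
  have a1 : ∀ᵐ s ∂P, s ∈ Ev G → G s 0 ≠ 0 := by
    filter_upwards [LC.point_wave hτ W 0 0] with s hs h hc
    obtain ⟨y, hy⟩ := h
    exact hy (hs hc y)
  refine ⟨a1, ?_⟩
  have mE := Ev_meas W.sf
  rcases eq_or_ne (P (Ev G)) 0 with h0 | h0
  · refine ⟨fun ρ _ => ⟨fun _ => ⊤, measurable_const, ae_of_all _ fun _ _ => le_top, ?_⟩, ?_⟩
    · rw [Measure.restrict_eq_zero.2 h0, lintegral_zero_measure]
      exact bot_le
    · rw [h0, mul_zero]
      exact bot_le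
  have ht : P (Ev G) ≠ ⊤ := measure_ne_top _ _
  obtain ⟨P', hP'⟩ : ∃ P' : Measure S, P' = (P (Ev G))⁻¹ • P.restrict (Ev G) := ⟨_, rfl⟩
  have pr : IsProbabilityMeasure P' := by
    refine ⟨?_⟩
    rw [hP', Measure.smul_apply, Measure.restrict_apply_univ, smul_eq_mul,
      ENNReal.inv_mul_cancel h0 ht]
  have hτ' : ∀ x, MeasurePreserving (τ x) P' P' := by
    intro x
    have h1 := (hτ x).restrict_preimage mE
    rw [Ev_inv W.sf] at h1
    rw [hP']
    exact h1.smul_measure _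
  have W' : Wave P' τ G := by
    refine ⟨W.sf, W.eq, ?_⟩
    rw [hP']
    exact (W.l2.restrict).smul_measure (ENNReal.inv_ne_top.2 h0)
  have ac : ∀ {p : S → Prop}, (∀ᵐ s ∂P', p s) → ∀ᵐ s ∂P, s ∈ Ev G → p s := by
    intro p hp
    rw [hP', Measure.ae_ennreal_smul_measure_iff (ENNReal.inv_ne_zero.2 ht)] at hp
    rwa [ae_restrict_iff' mE] at hp
  have nz : ∀ᵐ s ∂P', G s 0 ≠ 0 := by
    rw [hP', Measure.ae_ennreal_smul_measure_iff (ENNReal.inv_ne_zero.2 ht),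
      ae_restrict_iff' mE]
    exact a1
  obtain ⟨b1, b2⟩ := wave_main hτ' W' nz
  constructor
  · intro ρ hρ
    obtain ⟨Z, mZ, h1, h2⟩ := b1 ρ hρ
    refine ⟨Z, mZ, ac h1, ?_⟩
    rw [hP', lintegral_smul_measure, smul_eq_mul] at h2
    calc ∫⁻ s in Ev G, Z s ∂P = ((P (Ev G))⁻¹ * ∫⁻ s in Ev G, Z s ∂P) * P (Ev G) := by
          rw [mul_comm (P (Ev G))⁻¹, mul_assoc, ENNReal.inv_mul_cancel h0 ht, mul_one]
      _ ≤ _ := mul_le_mul_left h2 _
  · have h3 : ENNReal.ofReal (C2 d) ≤ P' {s | G s 0 < 0} := by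
      rw [← ofReal_measureReal (measure_ne_top _ _)]
      exact ENNReal.ofReal_le_ofReal b2
    rw [hP', Measure.smul_apply, smul_eq_mul,
      Measure.restrict_apply (measurableSet_lt (W.sf.meas 0) measurable_const)] at h3
    calc ENNReal.ofReal (C2 d) * P (Ev G) ≤
        ((P (Ev G))⁻¹ * P ({s | G s 0 < 0} ∩ Ev G)) * P (Ev G) := mul_le_mul_left h3 _
      _ = P ({s | G s 0 < 0} ∩ Ev G) := by
          rw [mul_comm (P (Ev G))⁻¹, mul_assoc, ENNReal.inv_mul_cancel h0 ht, mul_one]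
      _ ≤ _ := measure_mono Set.inter_subset_left

/-- general stationary waves -/
theorem wave_fin [IsProbabilityMeasure P] {F : S → E d → ℝ}
    (mF : ∀ y, Measurable fun s => F s y)
    (sF : ∀ s, ContDiff ℝ ∞ (F s)) (eF : ∀ s y, Lap (F s) y + F s y = 0)
    (st : ∀ x : E d, P.map (fun s y => F s (y + x)) = P.map (fun s y => F s y))
    (l2 : Integrable (fun s => F s 0 ^ 2) P) :
    (∀ᵐ s ∂P, (∃ y, F s y ≠ 0) → F s 0 ≠ 0) ∧
    (∀ ρ : ℝ, 0 ≤ ρ → ∫⁻ s in {s | ∃ y, F s y ≠ 0},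
      ENNReal.ofReal (Real.log (Sf ρ (F s) / |F s 0|)) ∂P ≤
        ENNReal.ofReal (C1 d ρ) * P {s | ∃ y, F s y ≠ 0}) ∧
    ENNReal.ofReal (C2 d) * P {s | ∃ y, F s y ≠ 0} ≤ P {s | F s 0 < 0} := by
  obtain ⟨Φ, mΦ, v1, hQ, hτ, W⟩ := LC.canon mF sF eF st l2
  obtain ⟨h1, h2, h3⟩ := wave_cond hτ W
  have mE := Ev_meas W.sf
  have e1 : Φ ⁻¹' Ev (fun f : LC.Sol d => f.1) = {s | ∃ y, F s y ≠ 0} := by
    ext s
    simp only [Ev, Set.mem_preimage, Set.mem_ofPred_eq, v1]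
  have e2 : Φ ⁻¹' {f : LC.Sol d | f.1 0 < 0} = {s | F s 0 < 0} := by
    ext s
    simp only [Set.mem_preimage, Set.mem_ofPred_eq, v1]
  have m2 : MeasurableSet {f : LC.Sol d | f.1 0 < 0} :=
    measurableSet_lt (W.sf.meas 0) measurable_const
  have mES : MeasurableSet {s | ∃ y, F s y ≠ 0} := e1 ▸ mΦ mE
  refine ⟨?_, fun ρ hρ => ?_, ?_⟩
  · filter_upwards [ae_of_ae_map mΦ.aemeasurable h1] with s hs h
    have := hs (by rw [← Set.mem_preimage, e1]; exact h)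
    rwa [v1] at this
  · obtain ⟨Z, mZ, h4, h5⟩ := h2 ρ hρ
    rw [setLIntegral_map mE mZ mΦ, Measure.map_apply mΦ mE, e1] at h5
    refine le_trans ?_ h5
    refine lintegral_mono_ae ?_
    rw [ae_restrict_iff' mES]
    filter_upwards [ae_of_ae_map mΦ.aemeasurable h4] with s hs h
    have := hs (by rw [← Set.mem_preimage, e1]; exact h)
    rwa [v1] at this
  · rw [Measure.map_apply mΦ mE, Measure.map_apply mΦ m2, e1, e2] at h3
    exact h3

end

end Pool.Agent.K6.H16.QS
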